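import Mathlib

/-!
# Strictly star-shaped bodies have boundaries homeomorphic to the sphere
-/

set_option autoImplicit false

namespace Pool.Agent.Y307.HS

open Set Filter Topology Metric

theorem star_body {E : Type*} [NormedAddCommGroup E] [NormedSpace ℝ E] [FiniteDimensional ℝ E]
    {T K : Set E} (hT : IsOpen T) (hK : IsCompact K) (hTK : T ⊆ K) (h0 : (0:E) ∈ T)
    (hstar : ∀ x ∈ K, ∀ t : ℝ, 0 ≤ t → t < 1 → t • x ∈ T) :
    closure T = K ∧ frontier T = K \ T ∧ IsConnected T ∧
      Nonempty (frontier T ≃ₜ sphere (0:E) 1) := by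
  have hcl : closure T = K := by
    refine Subset.antisymm (closure_minimal hTK hK.isClosed) fun x hx => ?_
    have h1 : Tendsto (fun n : ℕ => (1 - 1 / ((n:ℝ) + 1)) • x) atTop (𝓝 ((1 - 0 : ℝ) • x)) :=
      (tendsto_const_nhds.sub tendsto_one_div_add_atTop_nhds_zero_nat).smul_const x
    rw [sub_zero, one_smul] at h1
    refine mem_closure_of_tendsto h1 (Eventually.of_forall fun n => hstar x hx _ ?_ ?_)
    · rw [sub_nonneg, div_le_one (by positivity)]
      have : (0:ℝ) ≤ n := by positivity
      linarith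
    · have : (0:ℝ) < 1 / ((n:ℝ) + 1) := by positivity
      linarith
  have hfr : frontier T = K \ T := by
    rw [hT.frontier_eq, hcl]
  have hsc : StarConvex ℝ (0:E) T := by
    rw [starConvex_zero_iff]
    intro x hx t ht0 ht1
    rcases ht1.lt_or_eq with h | h
    · exact hstar x (hTK hx) t ht0 h
    · rw [h, one_smul]; exact hx
  refine ⟨hcl, hfr, (hsc.isPathConnected h0).isConnected, ?_⟩
  rw [hfr]
  have hne : ∀ x ∈ K \ T, x ≠ 0 := by
    rintro x hx rfl
    exact hx.2 h0
  have hpos : ∀ x ∈ K \ T, 0 < ‖x‖ := fun x hx => norm_pos_iff.2 (hne x hx)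
  have hcomp : IsCompact (K \ T) := hK.diff hT
  have : CompactSpace (K \ T : Set E) := isCompact_iff_compactSpace.1 hcomp
  let f : (K \ T : Set E) → sphere (0:E) 1 := fun x => ⟨(‖(x:E)‖)⁻¹ • (x:E), by
    rw [mem_sphere_zero_iff_norm, norm_smul, norm_inv, norm_norm,
      inv_mul_cancel₀ (hpos x x.2).ne']⟩
  have hfc : Continuous f := by
    refine Continuous.subtype_mk ?_ _
    exact (continuous_subtype_val.norm.inv₀ fun x => (hpos x x.2).ne').smul continuous_subtype_val
  have hinj : Function.Injective f := by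
    have key : ∀ x y : (K \ T : Set E), f x = f y → ‖(x:E)‖ ≤ ‖(y:E)‖ → x = y := by
      intro x y hxy hle
      have h1 : (‖(x:E)‖)⁻¹ • (x:E) = (‖(y:E)‖)⁻¹ • (y:E) := congrArg Subtype.val hxy
      have hx := hpos x x.2
      have hy := hpos y y.2
      have h2 : (x:E) = (‖(x:E)‖ * (‖(y:E)‖)⁻¹) • (y:E) := by
        rw [mul_smul, ← h1, smul_smul, mul_inv_cancel₀ hx.ne', one_smul]
      rcases hle.lt_or_eq with h | h
      · exfalso
        refine x.2.2 ?_
        rw [h2]
        refine hstar y y.2.1 _ (by positivity) ?_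
        rw [← div_eq_mul_inv, div_lt_one hy]
        exact h
      · apply Subtype.ext
        rw [h2, h, mul_inv_cancel₀ hy.ne', one_smul]
    intro x y hxy
    rcases le_total ‖(x:E)‖ ‖(y:E)‖ with h | h
    · exact key x y hxy h
    · exact (key y x hxy.symm h).symm
  have hsurj : Function.Surjective f := by
    intro u
    have hu : ‖(u:E)‖ = 1 := by simp
    -- the set of radii
    set L : Set ℝ := {r | 0 ≤ r ∧ r • (u:E) ∈ K} with hL
    have hLc : IsCompact L := by
      obtain ⟨R, hR⟩ := hK.isBounded.subset_closedBall (0:E)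
      refine (isCompact_Icc (a := (0:ℝ)) (b := R)).of_isClosed_subset ?_ ?_
      · exact isClosed_Ici.inter (hK.isClosed.preimage (by fun_prop))
      · rintro r ⟨hr0, hr⟩
        have := hR hr
        rw [mem_closedBall_zero_iff, norm_smul, hu, mul_one, Real.norm_eq_abs,
          abs_of_nonneg hr0] at this
        exact ⟨hr0, this⟩
    have hLne : L.Nonempty := ⟨0, le_rfl, by rw [zero_smul]; exact hTK h0⟩
    obtain ⟨r, hr, hmax⟩ := hLc.exists_isMaxOn hLne continuousOn_id
    have hrT : r • (u:E) ∉ T := by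
      intro hmem
      have hcont : Continuous fun s : ℝ => s • (u:E) := by fun_prop
      have hnh : (fun s : ℝ => s • (u:E)) ⁻¹' T ∈ 𝓝 r := hcont.continuousAt (hT.mem_nhds hmem)
      obtain ⟨ε, hε, hball⟩ := Metric.mem_nhds_iff.1 hnh
      have h1 : r + ε / 2 ∈ L := by
        refine ⟨by linarith [hr.1], hTK (hball ?_)⟩
        rw [mem_ball, Real.dist_eq]
        rw [show r + ε / 2 - r = ε / 2 by ring, abs_of_pos (by linarith)]
        linarith
      have h2 : r + ε / 2 ≤ r := hmax h1
      linarith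
    have hr0 : 0 < r := by
      rcases hr.1.lt_or_eq with h | h
      · exact h
      · exfalso
        rw [← h, zero_smul] at hrT
        exact hrT h0
    refine ⟨⟨r • (u:E), hr.2, hrT⟩, ?_⟩
    apply Subtype.ext
    show (‖r • (u:E)‖)⁻¹ • (r • (u:E)) = (u:E)
    rw [norm_smul, hu, mul_one, Real.norm_eq_abs, abs_of_pos hr0, smul_smul,
      inv_mul_cancel₀ hr0.ne', one_smul]
  exact ⟨hfc.homeoOfEquivCompactToT2 (f := Equiv.ofBijective f ⟨hinj, hsurj⟩)⟩

end Pool.Agent.Y307.HS
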