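import Pool.Agent.Y307.HS.Refl
import Pool.Agent.Y307.HS.Star

/-!
# The shell
-/

set_option autoImplicit false

namespace Pool.Agent.Y307.HS

open MeasureTheory Set Filter Topology Metric
open Pool.Agent.TH791.Cl Pool.Agent.TH791.Nw
open scoped ENNReal RealInnerProductSpace Pointwise

/-- density of the cube -/
noncomputable def oneU : E3 → ℝ := U.indicator fun _ => (1:ℝ)

lemma oneU_adm : Adm oneU := adm_ind U U_meas subset_rfl

lemma pot_mono {g h : E3 → ℝ} (hg : BD g) (hh : BD h) (hle : ∀ x, g x ≤ h x) (x : E3) :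
    pot g x ≤ pot h x := by
  unfold pot
  exact integral_mono (hg.int_div x) (hh.int_div x) fun y =>
    div_le_div_of_nonneg_right (hle y) (norm_nonneg _)

lemma oneU_mono : CubeMono (pot oneU) := by
  obtain ⟨B, hB⟩ := nice_bound oneU oneU_adm.bd.nice
  refine cubeMono (c := B) oneU_adm (fun x => ?_) (ae_of_all _ fun x _ => rfl)
  refine le_trans (le_of_eq ?_) (hB x).2
  unfold pot
  congr 1
  funext y
  rw [abs_of_nonneg (oneU_adm.2 y).1]

lemma strict (i : Fin 3) : pot oneU (ev i 1) < pot oneU 0 := by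
  by_contra hcon
  push Not at hcon
  have hn : ‖ev i 1‖ = 1 := ev_norm i (by norm_num)
  obtain ⟨B, hB⟩ := nice_bound oneU oneU_adm.bd.nice
  have hUm : ∀ x ∈ U, (1/2 : ℝ) < ⟪x, ev i 1⟫ → sg (ev i 1) (1/2) x ∈ U := by
    intro z hz hzt
    rw [ev_inner, one_mul] at hzt
    intro k
    unfold sg
    rw [ev_inner]
    simp only [PiLp.sub_apply, PiLp.smul_apply, smul_eq_mul, ev_apply]
    by_cases hki : k = i
    · subst hki
      have := abs_lt.1 (hz k)
      rw [if_pos rfl, abs_lt]
      constructor <;> linarith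
    · rw [if_neg hki, mul_zero, sub_zero]
      exact hz k
  have hmono := refl_mono (c := B) oneU_adm (fun x => by
    refine le_trans (le_of_eq ?_) (hB x).2
    unfold pot
    congr 1
    funext y
    rw [abs_of_nonneg (oneU_adm.2 y).1]) (ae_of_all _ fun x _ => rfl) (ev i 1) hn (1/2) hUm
  have hbd := sg_bd hn (1/2) oneU_adm
  have hs0 : sg (ev i 1) (1/2) (ev i 1) = 0 := by
    unfold sg
    rw [inner_self_one hn]
    norm_num
  have hw0 : pot (fun y => oneU (sg (ev i 1) (1/2) y) - oneU y) (ev i 1) ≤ 0 := by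
    rw [pot_diff hn _ oneU_adm, hs0]
    linarith
  have hballD : ∀ y ∈ ball (ev i 1) (1/4 : ℝ), (3/4 : ℝ) < y i := by
    intro y hy
    rw [mem_ball, dist_eq_norm] at hy
    have h1 : |(y - ev i 1) i| ≤ ‖y - ev i 1‖ := by
      have := PiLp.norm_apply_le (y - ev i 1) i
      rwa [Real.norm_eq_abs] at this
    have h2 : (y - ev i 1) i = y i - 1 := by
      simp only [PiLp.sub_apply, ev_apply, if_true]
    rw [h2] at h1
    have := (abs_le.1 h1).1
    linarith
  have hnn : ∀ᵐ y, y ∈ ball (ev i 1) (1/4 : ℝ) → 0 ≤ oneU (sg (ev i 1) (1/2) y) - oneU y := by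
    refine ae_of_all _ fun y hy => ?_
    have h1 := hballD y hy
    by_cases hyU : y ∈ U
    · have h2 := hUm y hyU (by rw [ev_inner]; linarith)
      unfold oneU
      rw [indicator_of_mem hyU, indicator_of_mem h2]
      norm_num
    · have : oneU y = 0 := oneU_adm.zero hyU
      rw [this, sub_zero]
      exact (oneU_adm.2 _).1
  have hav : 0 ≤ ∫ x, gb (1/4) (ev i 1) x *
      pot (fun y => oneU (sg (ev i 1) (1/2) y) - oneU y) x := by
    refine integral_nonneg fun x => ?_
    by_cases hx : x ∈ ball (ev i 1) (1/4 : ℝ)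
    · refine mul_nonneg (gb_nonneg (by norm_num) _ _) ?_
      rw [pot_diff hn _ oneU_adm]
      have := hmono x (by rw [ev_inner]; linarith [hballD x hx])
      linarith
    · show 0 ≤ gb (1/4) (ev i 1) x * _
      unfold gb
      rw [indicator_of_notMem hx, zero_mul]
  have hz := hbd.zero_of_mean (ev i 1) (s := 1/4) (by norm_num) hnn (hw0.trans hav)
  -- a contradiction on an open set
  set O : Set E3 := ball (ev i 1) (1/4 : ℝ) ∩ {y | 1 < y i} with hO
  have hOo : IsOpen O := isOpen_ball.inter (isOpen_lt continuous_const (by fun_prop))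
  have hOne : O.Nonempty := by
    refine ⟨ev i (9/8), ?_, ?_⟩
    · rw [mem_ball, dist_eq_norm]
      have : ev i (9/8) - ev i 1 = ev i (1/8) := by
        ext k
        simp only [PiLp.sub_apply, ev_apply]
        split_ifs <;> norm_num
      rw [this]
      unfold ev
      rw [PiLp.norm_single]
      norm_num
    · show 1 < ev i (9/8) i
      rw [ev_apply, if_pos rfl]
      norm_num
  have hpos := hOo.measure_pos volume hOne
  have hnull : volume O = 0 := by
    refine measure_mono_null ?_ (ae_iff.1 hz)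
    intro y hy
    show ¬ (y ∈ ball (ev i 1) (1/4 : ℝ) → oneU (sg (ev i 1) (1/2) y) - oneU y = 0)
    intro himp
    have h1 := himp hy.1
    have hy2 : 1 < y i := hy.2
    have hyU : y ∉ U := fun h => by
      have := (abs_lt.1 (h i)).2
      linarith
    have hb : ∀ k, |(y - ev i 1) k| < 1/4 := by
      intro k
      have h3 := hy.1
      rw [mem_ball, dist_eq_norm] at h3
      have := PiLp.norm_apply_le (y - ev i 1) k
      rw [Real.norm_eq_abs] at this
      linarith
    have hsU : sg (ev i 1) (1/2) y ∈ U := by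
      intro k
      unfold sg
      rw [ev_inner]
      simp only [PiLp.sub_apply, PiLp.smul_apply, smul_eq_mul, ev_apply]
      have h4 := hb k
      simp only [PiLp.sub_apply, ev_apply] at h4
      by_cases hki : k = i
      · subst hki
        rw [if_pos rfl] at h4 ⊢
        have := abs_lt.1 h4
        rw [abs_lt]
        constructor <;> linarith
      · rw [if_neg hki] at h4 ⊢
        have := abs_lt.1 h4
        rw [abs_lt]
        constructor <;> linarith
    rw [oneU_adm.zero hyU] at h1
    unfold oneU at h1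
    rw [indicator_of_mem hsU] at h1
    norm_num at h1
  rw [hnull] at hpos
  exact lt_irrefl _ hpos

/-- the inner body -/
theorem exists_cavity : ∃ T₁ : Set E3, IsOpen T₁ ∧ IsConnected T₁ ∧ Bornology.IsBounded T₁ ∧
    Nonempty (frontier T₁ ≃ₜ sphere (0:E3) 1) ∧ closure T₁ ⊆ U ∧
    ∃ c : ℝ, ∀ P ∈ T₁, ∫ M in U \ closure T₁, (dist P M)⁻¹ = c := by
  set V := pot oneU with hV
  have hV0 : ∀ x, 0 ≤ V x := fun x => integral_nonneg fun y =>
    div_nonneg (oneU_adm.2 y).1 (norm_nonneg _)
  set m := max (V (ev 0 1)) (max (V (ev 1 1)) (V (ev 2 1))) with hm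
  have hmlt : m < V 0 := max_lt (strict 0) (max_lt (strict 1) (strict 2))
  have hmi : ∀ i, V (ev i 1) ≤ m := by
    intro i
    fin_cases i
    · exact le_max_left _ _
    · exact (le_max_left _ _).trans (le_max_right _ _)
    · exact (le_max_right _ _).trans (le_max_right _ _)
  set c := (m + V 0) / 2 with hc
  have hm0 : 0 ≤ m := (hV0 _).trans (hmi 0)
  have hc0 : 0 < c := by rw [hc]; linarith
  have hcV : c < V 0 := by rw [hc]; linarith
  have hmc : m < c := by rw [hc]; linarith
  have hout : ∀ x, x ∉ U → V x < c := by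
    intro x hx
    obtain ⟨i, hi⟩ : ∃ i, 1 ≤ |x i| := by
      by_contra hcon
      push Not at hcon
      exact hx hcon
    refine lt_of_le_of_lt (oneU_mono.all (y := ev i 1) fun k => ?_) ((hmi i).trans_lt hmc)
    rw [ev_apply]
    by_cases hk : k = i
    · subst hk
      rw [if_pos rfl, abs_one]; exact hi
    · rw [if_neg hk, abs_zero]; positivity
  obtain ⟨g, hg, hmin⟩ := exists_min hc0.le
  obtain ⟨hst1, _⟩ := min_structure hg hmin
  have hle := min_le hc0.le hg hmin
  have hF := cubeMono hg hle hst1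
  set F := pot g with hFdef
  have hFV : ∀ x, F x ≤ V x := fun x => pot_mono hg.bd oneU_adm.bd (fun y => (hg.2 y).2) x
  set K : Set E3 := {x | c ≤ F x} with hK
  have hKcl : IsClosed K := isClosed_le continuous_const hg.bd.cont
  have hKU : K ⊆ U := by
    intro x hx
    by_contra hxU
    have h1 := hout x hxU
    have h2 : c ≤ F x := hx
    linarith [hFV x]
  have hKcomp : IsCompact K := by
    refine (isCompact_closedBall (0:E3) 2).of_isClosed_subset hKcl fun x hx => ?_
    rw [mem_closedBall_zero_iff]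
    exact (U_norm (hKU hx)).le
  obtain ⟨z, hzK, hz0⟩ : ∃ z ∈ K, z ≠ 0 := by
    by_contra hcon
    push Not at hcon
    have h1 : ∀ᵐ x : E3, x ≠ 0 := by rw [ae_iff]; simp
    have h2 : g =ᵐ[volume] oneU := by
      filter_upwards [h1, hst1] with x hx hx2
      refine hx2 ?_
      by_contra hc3
      push Not at hc3
      exact hx (hcon x hc3)
    have h3 : F 0 = V 0 := by
      rw [hFdef, hV]
      unfold pot
      refine integral_congr_ae ?_
      filter_upwards [h2] with y hy
      rw [hy]
    linarith [hle 0]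
  set T := interior K with hT
  have h0T : (0:E3) ∈ T := by
    have := hF.star hzK hz0 (t := 0) le_rfl (by norm_num)
    rwa [zero_smul] at this
  have hstar : ∀ x ∈ K, ∀ t : ℝ, 0 ≤ t → t < 1 → t • x ∈ T := by
    intro x hx t ht0 ht1
    by_cases hx0 : x = 0
    · rw [hx0, smul_zero]; exact h0T
    · exact hF.star hx hx0 ht0 ht1
  obtain ⟨hcl, hfr, hconn, hhom⟩ := star_body isOpen_interior hKcomp interior_subset h0T hstar
  have hdiff : volume (K \ T) = 0 := by
    have h1 : ∀ n : ℕ, ENNReal.ofReal |(1 - 1 / ((n:ℝ) + 1)) ^ 3| * volume K ≤ volume T := by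
      intro n
      have h2 := Measure.addHaar_smul (volume : Measure E3) (1 - 1 / ((n:ℝ) + 1)) K
      rw [finrank_euclideanSpace_fin] at h2
      rw [← h2]
      refine measure_mono ?_
      rintro _ ⟨x, hx, rfl⟩
      refine hstar x hx _ ?_ ?_
      · rw [sub_nonneg, div_le_one (by positivity)]
        have : (0:ℝ) ≤ n := by positivity
        linarith
      · have : (0:ℝ) < 1 / ((n:ℝ) + 1) := by positivity
        linarith
    have hKf : volume K ≠ ∞ := hKcomp.measure_lt_top.ne
    have h3 : Tendsto (fun n : ℕ => ENNReal.ofReal |(1 - 1 / ((n:ℝ) + 1)) ^ 3| * volume K) atTop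
        (𝓝 (1 * volume K)) := by
      refine ENNReal.Tendsto.mul_const ?_ (Or.inr hKf)
      have h4 : Tendsto (fun n : ℕ => |(1 - 1 / ((n:ℝ) + 1)) ^ 3|) atTop (𝓝 |(1 - 0 : ℝ) ^ 3|) :=
        ((tendsto_const_nhds.sub tendsto_one_div_add_atTop_nhds_zero_nat).pow 3).abs
      have h5 := (ENNReal.tendsto_ofReal h4)
      simpa using h5
    rw [one_mul] at h3
    have h6 : volume K ≤ volume T := le_of_tendsto h3 (Eventually.of_forall h1)
    have h7 := measure_sdiff (μ := (volume : Measure E3)) (interior_subset (s := K))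
      isOpen_interior.measurableSet.nullMeasurableSet
      (((measure_mono interior_subset).trans_lt (lt_top_iff_ne_top.2 hKf)).ne)
    rw [h7]
    exact tsub_eq_zero_of_le h6
  have hgT : ∀ᵐ x, x ∈ T → g x = 0 := by
    rw [ae_iff]
    refine measure_null_of_locally_null _ fun x hx => ?_
    have hxT : x ∈ T := by
      by_contra h
      exact hx fun h' => absurd h' h
    obtain ⟨s, hs0, hsub⟩ := Metric.isOpen_iff.1 isOpen_interior x hxT
    have hFc : ∀ y ∈ ball x s, F y = c := fun y hy =>
      le_antisymm (hle y) (show y ∈ K from interior_subset (hsub hy))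
    have h1 : F x ≤ ∫ y, gb s x y * F y := by
      have e : (fun y => gb s x y * F y) = fun y => c * gb s x y := by
        funext y
        by_cases hy : y ∈ ball x s
        · rw [hFc y hy, mul_comm]
        · unfold gb
          rw [indicator_of_notMem hy, zero_mul, mul_zero]
      rw [e, integral_const_mul, gb_total hs0, mul_one]
      exact hle x
    have h2 := hg.bd.zero_of_mean x hs0 (ae_of_all _ fun y _ => (hg.2 y).1) h1
    refine ⟨ball x s ∩ {a | ¬ (a ∈ T → g a = 0)}, ?_, ?_⟩
    · rw [inter_comm]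
      exact inter_mem self_mem_nhdsWithin (mem_nhdsWithin_of_mem_nhds (ball_mem_nhds x hs0))
    · refine measure_mono_null ?_ (ae_iff.1 h2)
      rintro y ⟨hy1, hy2⟩
      show ¬ (y ∈ ball x s → g y = 0)
      intro h3
      exact hy2 fun _ => h3 hy1
  have hgae : g =ᵐ[volume] (U \ K).indicator fun _ => (1:ℝ) := by
    have hd : ∀ᵐ x, x ∉ K \ T := by
      rw [ae_iff]
      refine measure_mono_null (fun x hx => ?_) hdiff
      exact not_not.1 hx
    filter_upwards [hst1, hgT, hd] with x h1 h2 h3
    by_cases hxU : x ∈ U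
    · by_cases hxK : x ∈ K
      · have hxT : x ∈ T := by
          by_contra h
          exact h3 ⟨hxK, h⟩
        rw [h2 hxT, indicator_of_notMem]
        exact fun h => h.2 hxK
      · rw [indicator_of_mem (show x ∈ U \ K from ⟨hxU, hxK⟩), h1 (not_le.1 hxK),
          indicator_of_mem hxU]
    · rw [hg.zero hxU, indicator_of_notMem]
      exact fun h => hxU h.1
  refine ⟨T, isOpen_interior, hconn, hKcomp.isBounded.subset interior_subset, hhom, ?_, c, ?_⟩
  · rw [hcl]; exact hKU
  · intro P hP
    rw [hcl]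
    have h1 : F P = c := le_antisymm (hle P) (show P ∈ K from interior_subset hP)
    rw [← h1, hFdef, ← integral_indicator (U_meas.diff hKcl.measurableSet)]
    unfold pot
    refine integral_congr_ae ?_
    filter_upwards [hgae] with y hy
    rw [hy]
    by_cases hyU : y ∈ U \ K
    · rw [indicator_of_mem hyU, indicator_of_mem hyU, dist_eq_norm, one_div]
    · rw [indicator_of_notMem hyU, indicator_of_notMem hyU, zero_div]

/-- the closed cube -/
def Kc : Set E3 := {x | ∀ i, |x i| ≤ 1}

lemma cube_body : frontier U = Kc \ U ∧ IsConnected U ∧ Nonempty (frontier U ≃ₜ sphere (0:E3) 1) := by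
  have hKcl : IsClosed Kc := by
    have : Kc = ⋂ i, {x : E3 | |x i| ≤ 1} := by
      ext x; simp [Kc]
    rw [this]
    exact isClosed_iInter fun i => isClosed_le (by fun_prop) continuous_const
  have hKcomp : IsCompact Kc := by
    refine (isCompact_closedBall (0:E3) 2).of_isClosed_subset hKcl fun x hx => ?_
    rw [mem_closedBall_zero_iff]
    have h1 : ‖x‖ ^ 2 ≤ 2 ^ 2 := by
      rw [EuclideanSpace.norm_sq_eq, Fin.sum_univ_three]
      simp only [Real.norm_eq_abs]
      have h0 := hx 0
      have h1 := hx 1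
      have h2 := hx 2
      have e0 : |x 0| ^ 2 ≤ 1 := by nlinarith [abs_nonneg (x 0)]
      have e1 : |x 1| ^ 2 ≤ 1 := by nlinarith [abs_nonneg (x 1)]
      have e2 : |x 2| ^ 2 ≤ 1 := by nlinarith [abs_nonneg (x 2)]
      linarith
    exact le_of_sq_le_sq h1 (by norm_num)
  obtain ⟨_, h2, h3, h4⟩ := star_body U_open hKcomp (fun x hx i => (hx i).le)
    (show (0:E3) ∈ U by intro i; simp) (fun x hx t ht0 ht1 i => by
      rw [PiLp.smul_apply, smul_eq_mul, abs_mul, abs_of_nonneg ht0]
      have := hx i
      nlinarith [abs_nonneg (x i)])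
  exact ⟨h2, h3, h4⟩

lemma cube_not_ellipsoid (f : E3 ≃ᵃ[ℝ] E3) : frontier U ≠ f '' sphere (0:E3) 1 := by
  intro heq
  have hmem : ∀ s : ℝ, |s| ≤ 1 → (!₂[1, s, 0] : E3) ∈ frontier U := by
    intro s hs
    rw [cube_body.1]
    refine ⟨fun i => ?_, fun h => ?_⟩
    · fin_cases i
      · simp
      · simpa using hs
      · simp
    · have := h 0
      simp at this
  have ha := hmem (1/2) (by rw [abs_of_pos] <;> norm_num)
  have hb := hmem (-1/2) (by rw [abs_le]; constructor <;> norm_num)
  have hm := hmem 0 (by simp)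
  rw [heq] at ha hb hm
  obtain ⟨u, hu, hfu⟩ := ha
  obtain ⟨v, hv, hfv⟩ := hb
  obtain ⟨w, hw, hfw⟩ := hm
  rw [mem_sphere_zero_iff_norm] at hu hv hw
  have h1 : w = midpoint ℝ u v := by
    apply f.injective
    rw [AffineEquiv.map_midpoint, hfu, hfv, hfw]
    rw [midpoint_eq_smul_add]
    ext i
    fin_cases i <;> simp <;> norm_num
  have h2 := parallelogram_law_with_norm ℝ u v
  have h3 : ‖u + v‖ = 2 := by
    rw [midpoint_eq_smul_add] at h1
    have h4 : ‖w‖ = 1/2 * ‖u + v‖ := by
      rw [h1, norm_smul]; norm_num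
    linarith
  rw [h3, hu, hv] at h2
  have h5 : ‖u - v‖ = 0 := by
    have : ‖u - v‖ * ‖u - v‖ = 0 := by linarith
    exact mul_self_eq_zero.1 this
  have h6 : u = v := sub_eq_zero.1 (norm_eq_zero.1 h5)
  rw [h6, hfv] at hfu
  have h7 := congrArg (fun x : E3 => x 1) hfu
  simp at h7
  norm_num at h7

end Pool.Agent.Y307.HS
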