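import Pool.Agent.Y307.HS.Pot

/-!
# Existence of a minimizer of the Coulomb energy with an obstacle, and its properties
-/

set_option autoImplicit false

namespace Pool.Agent.Y307.HS

open MeasureTheory Set Filter Topology Metric
open Pool.Agent.TH791.Cl Pool.Agent.TH791.Nw
open scoped ENNReal RealInnerProductSpace

/-- nested closed convex bounded sets in a Hilbert space -/
theorem nested {H : Type*} [NormedAddCommGroup H] [InnerProductSpace ℝ H] [CompleteSpace H]
    (K : ℕ → Set H) (hne : ∀ n, (K n).Nonempty) (hcl : ∀ n, IsClosed (K n))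
    (hcv : ∀ n, Convex ℝ (K n)) (hanti : Antitone K) (B : ℝ) (hB : ∀ x ∈ K 0, ‖x‖ ≤ B) :
    ∃ x, ∀ n, x ∈ K n := by
  have hmin : ∀ n, ∃ v ∈ K n, ∀ w ∈ K n, ‖v‖ ≤ ‖w‖ := by
    intro n
    obtain ⟨v, hv, hv2⟩ := exists_norm_eq_iInf_of_complete_convex (hne n) (hcl n).isComplete
      (hcv n) 0
    refine ⟨v, hv, fun w hw => ?_⟩
    have h1 : ‖(0:H) - v‖ ≤ ‖(0:H) - w‖ := by
      rw [hv2]
      exact ciInf_le ⟨0, by rintro _ ⟨z, rfl⟩; exact norm_nonneg _⟩ (⟨w, hw⟩ : K n)
    simpa using h1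
  choose x hx hxmin using hmin
  have hmono : Monotone fun n => ‖x n‖ ^ 2 := by
    refine monotone_nat_of_le_succ fun n => ?_
    have := hxmin n (x (n+1)) (hanti (Nat.le_succ n) (hx (n+1)))
    exact pow_le_pow_left₀ (norm_nonneg _) this 2
  have hbdd : BddAbove (range fun n => ‖x n‖ ^ 2) := by
    refine ⟨B ^ 2, ?_⟩
    rintro _ ⟨n, rfl⟩
    exact pow_le_pow_left₀ (norm_nonneg _) (hB _ (hanti (Nat.zero_le n) (hx n))) 2
  have hlim := tendsto_atTop_ciSup hmono hbdd
  have hkey : ∀ n m, n ≤ m → ‖x m - x n‖ ^ 2 ≤ 2 * (‖x m‖ ^ 2 - ‖x n‖ ^ 2) := by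
    intro n m hnm
    have h1 : (1/2 : ℝ) • x n + (1/2 : ℝ) • x m ∈ K n :=
      hcv n (hx n) (hanti hnm (hx m)) (by norm_num) (by norm_num) (by norm_num)
    have h2 := hxmin n _ h1
    have h3 : ‖(1/2 : ℝ) • x n + (1/2 : ℝ) • x m‖ = 1/2 * ‖x m + x n‖ := by
      rw [← smul_add, norm_smul, add_comm (x n)]
      norm_num
    rw [h3] at h2
    have h4 := parallelogram_law_with_norm ℝ (x m) (x n)
    have h5 : (2 * ‖x n‖) ^ 2 ≤ ‖x m + x n‖ ^ 2 :=
      pow_le_pow_left₀ (by positivity) (by linarith) 2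
    nlinarith
  have hcau : CauchySeq x := by
    rw [Metric.cauchySeq_iff']
    intro ε hε
    have hc := hlim.cauchySeq
    rw [Metric.cauchySeq_iff'] at hc
    obtain ⟨N, hN⟩ := hc (ε ^ 2 / 2) (by positivity)
    refine ⟨N, fun n hn => ?_⟩
    have h1 := hN n hn
    rw [Real.dist_eq, abs_of_nonneg (by have := hmono hn; simp only at this; linarith)] at h1
    have h2 := hkey N n hn
    rw [dist_eq_norm]
    have h3 : ‖x n - x N‖ ^ 2 < ε ^ 2 := by
      linarith
    exact lt_of_pow_lt_pow_left₀ 2 hε.le h3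
  obtain ⟨y, hy⟩ := cauchySeq_tendsto_of_complete hcau
  refine ⟨y, fun n => (hcl n).mem_of_tendsto hy ?_⟩
  filter_upwards [eventually_ge_atTop n] with m hm
  exact hanti hm (hx m)

/-- the open cube -/
def U : Set E3 := {x | ∀ i, |x i| < 1}

lemma U_open : IsOpen U := by
  have : U = ⋂ i, {x : E3 | |x i| < 1} := by
    ext x; simp [U]
  rw [this]
  refine isOpen_iInter_of_finite fun i => ?_
  exact isOpen_lt (by fun_prop) continuous_const

lemma U_norm {x : E3} (hx : x ∈ U) : ‖x‖ < 2 := by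
  have h1 : ‖x‖ ^ 2 < 2 ^ 2 := by
    rw [EuclideanSpace.norm_sq_eq, Fin.sum_univ_three]
    simp only [Real.norm_eq_abs]
    have h := hx
    have h0 := h 0
    have h1 := h 1
    have h2 := h 2
    have e0 : |x 0| ^ 2 < 1 := by nlinarith [abs_nonneg (x 0)]
    have e1 : |x 1| ^ 2 < 1 := by nlinarith [abs_nonneg (x 1)]
    have e2 : |x 2| ^ 2 < 1 := by nlinarith [abs_nonneg (x 2)]
    linarith
  exact lt_of_pow_lt_pow_left₀ 2 (by norm_num) h1

lemma U_meas : MeasurableSet U := U_open.measurableSet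

lemma U_fin : volume U ≠ ∞ := by
  have : U ⊆ ball (0:E3) 2 := fun x hx => by
    rw [mem_ball_zero_iff]; exact U_norm hx
  exact ((measure_mono this).trans_lt measure_ball_lt_top).ne

/-- admissible densities -/
def Adm (g : E3 → ℝ) : Prop := Measurable g ∧ ∀ x, 0 ≤ g x ∧ g x ≤ U.indicator (fun _ => (1:ℝ)) x

lemma Adm.le_one {g : E3 → ℝ} (hg : Adm g) (x : E3) : g x ≤ 1 := by
  refine (hg.2 x).2.trans ?_
  by_cases h : x ∈ U
  · rw [indicator_of_mem h]
  · rw [indicator_of_notMem h]; norm_num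

lemma Adm.zero {g : E3 → ℝ} (hg : Adm g) {x : E3} (hx : x ∉ U) : g x = 0 := by
  have := (hg.2 x).2
  rw [indicator_of_notMem hx] at this
  exact le_antisymm this (hg.2 x).1

lemma Adm.bd {g : E3 → ℝ} (hg : Adm g) : BD g := by
  refine ⟨hg.1, fun x => ?_, 2, fun x hx => hg.zero fun h => ?_⟩
  · rw [abs_of_nonneg (hg.2 x).1]; exact hg.le_one x
  · linarith [U_norm h]

lemma adm_ind (A : Set E3) (hA : MeasurableSet A) (hAU : A ⊆ U) :
    Adm (A.indicator fun _ => (1:ℝ)) := by
  refine ⟨measurable_const.indicator hA, fun x => ⟨indicator_nonneg (fun _ _ => by norm_num) x, ?_⟩⟩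
  exact indicator_le_indicator_of_subset hAU (fun _ => by norm_num) x

lemma adm_conv {g h : E3 → ℝ} (hg : Adm g) (hh : Adm h) {t : ℝ} (ht0 : 0 ≤ t) (ht1 : t ≤ 1) :
    Adm fun x => g x + t * (h x - g x) := by
  refine ⟨hg.1.add ((hh.1.sub hg.1).const_mul t), fun x => ⟨?_, ?_⟩⟩
  · nlinarith [(hg.2 x).1, (hh.2 x).1]
  · nlinarith [(hg.2 x).2, (hh.2 x).2]

/-- the functional -/
noncomputable def J (c : ℝ) (g : E3 → ℝ) : ℝ := 1/2 * (∫ x, g x * pot g x) - c * ∫ x, g x

/-- its affine minorants -/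
noncomputable def Aff (c : ℝ) (N g : E3 → ℝ) : ℝ :=
  (∫ x, g x * (pot N x - c)) - 1/2 * ∫ x, N x * pot N x

lemma int_mul {g N : E3 → ℝ} (c : ℝ) (hg : BD g) (hN : BD N) :
    Integrable (fun x => g x * (pot N x - c)) ∧
    ∫ x, g x * (pot N x - c) = (∫ x, g x * pot N x) - c * ∫ x, g x := by
  have h1 := pd_int g N hg.nice hN.nice
  have e : (fun x => g x * (pot N x - c)) = fun x => g x * pot N x - c * g x := by
    funext x; ring
  rw [e]
  exact ⟨h1.sub (hg.integrable.const_mul c), by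
    rw [integral_sub h1 (hg.integrable.const_mul c), integral_const_mul]⟩

lemma gg_eq {g : E3 → ℝ} : ∫ x, ∫ y, g x * g y / ‖x - y‖ = ∫ x, g x * pot g x :=
  integral_congr_ae (ae_of_all _ fun x => pd_inner g g x)

lemma Aff_le {c : ℝ} {N g : E3 → ℝ} (hg : BD g) (hN : BD N) : Aff c N g ≤ J c g := by
  unfold Aff J
  have h := pd_main g N hg.nice hN.nice
  rw [gg_eq] at h
  rw [(int_mul c hg hN).2]
  linarith

lemma Aff_self {c : ℝ} {g : E3 → ℝ} (hg : BD g) : Aff c g g = J c g := by
  unfold Aff J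
  rw [(int_mul c hg hg).2]
  ring

/-- the set of all energies -/
def EnSet (c : ℝ) : Set ℝ := {e | ∃ g, Adm g ∧ e = J c g}

lemma J_lb {c : ℝ} (hc : 0 ≤ c) {g : E3 → ℝ} (hg : Adm g) : - c * (volume U).toReal ≤ J c g := by
  unfold J
  have h1 : 0 ≤ ∫ x, g x * pot g x := by
    have := coulomb_pd g hg.bd.nice
    rwa [gg_eq] at this
  have h2 : ∫ x, g x ≤ (volume U).toReal := by
    have : ∫ x, U.indicator (fun _ => (1:ℝ)) x = (volume U).toReal := by
      rw [integral_indicator U_meas]; simp [Measure.real]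
    rw [← this]
    refine integral_mono hg.bd.integrable ?_ fun x => (hg.2 x).2
    rw [integrable_indicator_iff U_meas]
    exact integrableOn_const U_fin
  nlinarith

/-- the Hilbert space of square integrable functions on the cube -/
noncomputable abbrev HU : Type := Lp ℝ 2 ((volume : Measure E3).restrict U)

instance : IsFiniteMeasure ((volume : Measure E3).restrict U) := ⟨by
  rw [Measure.restrict_apply_univ]; exact lt_top_iff_ne_top.2 U_fin⟩

lemma pot_memLp {N : E3 → ℝ} (hN : BD N) (c : ℝ) :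
    MemLp (fun x => pot N x - c) 2 ((volume : Measure E3).restrict U) := by
  obtain ⟨B, hB⟩ := nice_bound N hN.nice
  refine MemLp.of_bound ((hN.cont.sub continuous_const).aestronglyMeasurable) (B + |c|)
    (Eventually.of_forall fun x => ?_)
  have h1 : |pot N x| ≤ B := by
    have h1 : |pot N x| ≤ ∫ y, |N y / ‖x - y‖| := by
      unfold pot
      exact abs_integral_le_integral_abs
    refine h1.trans (le_trans (le_of_eq ?_) (hB x).2)
    apply integral_congr_ae
    refine ae_of_all _ (fun y => ?_)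
    show |N y / ‖x - y‖| = |N y| / ‖x - y‖
    rw [abs_div, abs_of_nonneg (norm_nonneg _)]
  rw [Real.norm_eq_abs]
  calc |pot N x - c| ≤ |pot N x| + |c| := abs_sub _ _
    _ ≤ B + |c| := by linarith

lemma adm_memLp {g : E3 → ℝ} (hg : Adm g) :
    MemLp g 2 ((volume : Measure E3).restrict U) :=
  MemLp.of_bound hg.1.aestronglyMeasurable 1 (Eventually.of_forall fun x => hg.bd.2.1 x)

lemma int_U {f : E3 → ℝ} (hf : ∀ x, x ∉ U → f x = 0) : ∫ x in U, f x = ∫ x, f x := by
  rw [← integral_indicator U_meas]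
  congr 1
  funext x
  by_cases h : x ∈ U
  · rw [indicator_of_mem h]
  · rw [indicator_of_notMem h, hf x h]

lemma inner_eq {g N : E3 → ℝ} (c : ℝ) (hg : Adm g) (hN : BD N) (G : HU)
    (hG : ∀ᵐ x ∂((volume : Measure E3).restrict U), G x = g x) :
    ⟪(pot_memLp hN c).toLp, G⟫ = ∫ x, g x * (pot N x - c) := by
  rw [L2.inner_def, ← int_U (f := fun x => g x * (pot N x - c))
    (fun x hx => by rw [hg.zero hx, zero_mul])]
  refine integral_congr_ae ?_
  filter_upwards [hG, (pot_memLp hN c).coeFn_toLp] with x h1 h2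
  rw [h1, h2]
  simp [mul_comm]

/-- existence of the minimizer -/
theorem exists_min {c : ℝ} (hc : 0 ≤ c) : ∃ g, Adm g ∧ ∀ h, Adm h → J c g ≤ J c h := by
  have h0 : Adm (fun _ => (0:ℝ)) := ⟨measurable_const, fun x =>
    ⟨le_rfl, indicator_nonneg (fun _ _ => by norm_num) x⟩⟩
  have hbdd : BddBelow (EnSet c) := by
    refine ⟨- c * (volume U).toReal, ?_⟩
    rintro _ ⟨g, hg, rfl⟩
    exact J_lb hc hg
  have hne : (EnSet c).Nonempty := ⟨_, _, h0, rfl⟩
  set m := sInf (EnSet c) with hm
  set one : HU := (adm_memLp (adm_ind U U_meas subset_rfl)).toLp with hone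
  let K : ℕ → Set HU := fun n => {G | 0 ≤ G ∧ G ≤ one ∧ ∀ N (hN : Adm N),
    ⟪(pot_memLp hN.bd c).toLp, G⟫ - 1/2 * (∫ x, N x * pot N x) ≤ m + 1 / ((n:ℝ) + 1)}
  have hK1 : ∀ n, (K n).Nonempty := by
    intro n
    obtain ⟨e, ⟨g, hg, rfl⟩, he⟩ := exists_lt_of_csInf_lt hne
      (show m < m + 1 / ((n:ℝ) + 1) by have : 0 < 1 / ((n:ℝ) + 1) := by positivity
                                       linarith)
    refine ⟨(adm_memLp hg).toLp, ?_, ?_, ?_⟩
    · rw [← Lp.coeFn_nonneg]
      filter_upwards [(adm_memLp hg).coeFn_toLp] with x hx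
      rw [hx]; exact (hg.2 x).1
    · rw [← Lp.coeFn_le]
      filter_upwards [(adm_memLp hg).coeFn_toLp,
        (adm_memLp (adm_ind U U_meas subset_rfl)).coeFn_toLp] with x hx hx2
      rw [hx, hone, hx2]; exact (hg.2 x).2
    · intro N hN
      rw [inner_eq c hg hN.bd _ (adm_memLp hg).coeFn_toLp]
      have := Aff_le (c := c) hg.bd hN.bd
      unfold Aff at this
      linarith
  have hK2 : ∀ n, IsClosed (K n) := by
    intro n
    show IsClosed (Ici (0:HU) ∩ (Iic one ∩ {G : HU | ∀ N (hN : Adm N),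
      ⟪(pot_memLp hN.bd c).toLp, G⟫ - 1/2 * (∫ x, N x * pot N x) ≤ m + 1 / ((n:ℝ) + 1)}))
    refine IsClosed.inter isClosed_Ici (IsClosed.inter isClosed_Iic ?_)
    rw [show {G : HU | ∀ N (hN : Adm N), ⟪(pot_memLp hN.bd c).toLp, G⟫ -
      1/2 * (∫ x, N x * pot N x) ≤ m + 1 / ((n:ℝ) + 1)} =
      ⋂ N, ⋂ (hN : Adm N), {G : HU | ⟪(pot_memLp hN.bd c).toLp, G⟫ -
      1/2 * (∫ x, N x * pot N x) ≤ m + 1 / ((n:ℝ) + 1)} by ext G; simp]
    refine isClosed_iInter fun N => isClosed_iInter fun hN => ?_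
    exact isClosed_le ((continuous_const.inner continuous_id).sub continuous_const)
      continuous_const
  have hK3 : ∀ n, Convex ℝ (K n) := by
    intro n G hG G' hG' a b ha hb hab
    refine ⟨?_, ?_, ?_⟩
    · rw [← Lp.coeFn_nonneg]
      filter_upwards [Lp.coeFn_add (a • G) (b • G'), Lp.coeFn_smul a G, Lp.coeFn_smul b G',
        (Lp.coeFn_nonneg G).2 hG.1, (Lp.coeFn_nonneg G').2 hG'.1] with x h1 h2 h3 h4 h5
      rw [h1, Pi.add_apply, h2, h3, Pi.smul_apply, Pi.smul_apply, smul_eq_mul, smul_eq_mul]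
      have h4' : (0:ℝ) ≤ G x := h4
      have h5' : (0:ℝ) ≤ G' x := h5
      show (0:ℝ) ≤ _
      positivity
    · rw [← Lp.coeFn_le]
      filter_upwards [Lp.coeFn_add (a • G) (b • G'), Lp.coeFn_smul a G, Lp.coeFn_smul b G',
        (Lp.coeFn_le G one).2 hG.2.1, (Lp.coeFn_le G' one).2 hG'.2.1] with x h1 h2 h3 h4 h5
      rw [h1, Pi.add_apply, h2, h3, Pi.smul_apply, Pi.smul_apply, smul_eq_mul, smul_eq_mul]
      have e : one x = a * one x + b * one x := by rw [← add_mul, hab, one_mul]
      rw [e]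
      gcongr
    · intro N hN
      have h1 := hG.2.2 N hN
      have h2 := hG'.2.2 N hN
      rw [inner_add_right, inner_smul_right, inner_smul_right]
      have e1 : 1/2 * (∫ x, N x * pot N x) = a * (1/2 * (∫ x, N x * pot N x)) +
          b * (1/2 * (∫ x, N x * pot N x)) := by rw [← add_mul, hab, one_mul]
      have e2 : m + 1 / ((n:ℝ) + 1) = a * (m + 1 / ((n:ℝ) + 1)) + b * (m + 1 / ((n:ℝ) + 1)) := by
        rw [← add_mul, hab, one_mul]
      rw [e1, e2]
      nlinarith [mul_le_mul_of_nonneg_left h1 ha, mul_le_mul_of_nonneg_left h2 hb]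
  have hK4 : Antitone K := by
    intro n n' hnn' G hG
    refine ⟨hG.1, hG.2.1, fun N hN => (hG.2.2 N hN).trans ?_⟩
    have : 1 / ((n':ℝ) + 1) ≤ 1 / ((n:ℝ) + 1) := by
      apply one_div_le_one_div_of_le (by positivity)
      have : (n:ℝ) ≤ n' := by exact_mod_cast hnn'
      linarith
    linarith
  have hK5 : ∀ G ∈ K 0, ‖G‖ ≤ ‖one‖ := by
    intro G hG
    refine Lp.norm_le_norm_of_ae_le ?_
    filter_upwards [(Lp.coeFn_nonneg G).2 hG.1, (Lp.coeFn_le G one).2 hG.2.1] with x h1 h2
    have h1' : (0:ℝ) ≤ G x := h1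
    rw [Real.norm_eq_abs, Real.norm_eq_abs, abs_of_nonneg h1', abs_of_nonneg (h1'.trans h2)]
    exact h2
  obtain ⟨G, hG⟩ := nested K hK1 hK2 hK3 hK4 _ hK5
  set g : E3 → ℝ := U.indicator (fun x => max 0 (min 1 (G x))) with hgdef
  have hgm : Measurable g := by
    refine Measurable.indicator ?_ U_meas
    exact measurable_const.max (measurable_const.min (Lp.stronglyMeasurable G).measurable)
  have hg : Adm g := by
    refine ⟨hgm, fun x => ⟨indicator_nonneg (fun x _ => le_max_left _ _) x, ?_⟩⟩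
    rw [hgdef]
    exact indicator_le_indicator (max_le zero_le_one (min_le_left _ _))
  have hGg : ∀ᵐ x ∂((volume : Measure E3).restrict U), G x = g x := by
    filter_upwards [(Lp.coeFn_nonneg G).2 (hG 0).1, (Lp.coeFn_le G one).2 (hG 0).2.1,
      (adm_memLp (adm_ind U U_meas subset_rfl)).coeFn_toLp, ae_restrict_mem U_meas]
      with x h1 h2 h3 h4
    have h1' : (0:ℝ) ≤ G x := h1
    rw [hone, h3, indicator_of_mem h4] at h2
    rw [hgdef, indicator_of_mem h4, min_eq_right h2, max_eq_right h1']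
  have hle : J c g ≤ m := by
    refine le_of_forall_pos_le_add fun ε hε => ?_
    obtain ⟨n, hn⟩ := exists_nat_one_div_lt hε
    have h := (hG n).2.2 g hg
    rw [inner_eq c hg hg.bd _ hGg] at h
    have h2 := Aff_self (c := c) hg.bd
    unfold Aff at h2
    linarith
  exact ⟨g, hg, fun h hh => hle.trans (csInf_le hbdd ⟨h, hh, rfl⟩)⟩

/-- variational inequality -/
lemma var_ineq {c : ℝ} {g : E3 → ℝ} (hg : Adm g) (hmin : ∀ h, Adm h → J c g ≤ J c h)
    {h : E3 → ℝ} (hh : Adm h) : 0 ≤ ∫ x, (h x - g x) * (pot g x - c) := by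
  have hbd : BD (fun x => h x - g x) := by
    refine ⟨hh.1.sub hg.1, fun x => ?_, 2, fun x hx => ?_⟩
    · rw [abs_le]
      constructor <;> linarith [(hg.2 x).1, (hh.2 x).1, hg.le_one x, hh.le_one x]
    · have : x ∉ U := fun h => by linarith [U_norm h]
      show h x - g x = 0
      rw [hg.zero this, hh.zero this, sub_zero]
  set a := ∫ x, (h x - g x) * (pot g x - c) with ha
  set b := ∫ x, (h x - g x) * pot (fun x => h x - g x) x with hb
  have key : ∀ t : ℝ, 0 < t → t ≤ 1 → 0 ≤ a + t * b := by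
    intro t ht0 ht1
    have hadm := adm_conv hg hh ht0.le ht1
    set gt : E3 → ℝ := fun x => g x + t * (h x - g x) with hgt
    have h1 := Aff_le (c := c) hg.bd hadm.bd
    have h2 := hmin _ hadm
    have h3 := Aff_self (c := c) hadm.bd
    have h4 : Aff c gt gt ≤ Aff c gt g + 0 ∨ True := Or.inr trivial
    have hpot : ∀ x, pot gt x = pot g x + t * pot (fun x => h x - g x) x := by
      intro x
      unfold pot
      rw [← integral_const_mul, ← integral_add (hg.bd.int_div x) ((hbd.int_div x).const_mul t)]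
      congr 1
      funext y
      simp only [hgt]
      ring
    -- J(gt) ≥ J(g) ≥ Aff gt g
    have h5 : Aff c gt g ≤ Aff c gt gt := by
      rw [h3]; exact h1.trans h2
    unfold Aff at h5
    have h6 : ∫ x, g x * (pot gt x - c) ≤ ∫ x, gt x * (pot gt x - c) := by linarith
    have h7 : (∫ x, gt x * (pot gt x - c)) - ∫ x, g x * (pot gt x - c) =
        t * (a + t * b) := by
      rw [← integral_sub (int_mul c hadm.bd hadm.bd).1 (int_mul c hg.bd hadm.bd).1]
      have e : ∀ x, gt x * (pot gt x - c) - g x * (pot gt x - c) =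
          t * ((h x - g x) * (pot g x - c) + t * ((h x - g x) * pot (fun x => h x - g x) x)) := by
        intro x
        rw [hpot x]
        simp only [hgt]
        ring
      simp_rw [e]
      rw [integral_const_mul, integral_add (int_mul c hbd hg.bd).1
        ((pd_int _ _ hbd.nice hbd.nice).const_mul t), integral_const_mul]
    have h8 : 0 ≤ t * (a + t * b) := by linarith
    exact nonneg_of_mul_nonneg_right h8 ht0
  by_contra hneg
  push Not at hneg
  have hb0 : 0 ≤ b := by
    have := coulomb_pd (fun x => h x - g x) hbd.nice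
    rw [gg_eq] at this
    exact this
  have h1 := key (min 1 (-a / (2 * (b + 1)))) (lt_min one_pos (by
    apply div_pos (by linarith) (by linarith))) (min_le_left _ _)
  have h2 : min 1 (-a / (2 * (b + 1))) * b ≤ -a / (2 * (b + 1)) * b :=
    mul_le_mul_of_nonneg_right (min_le_right _ _) hb0
  have h3 : -a / (2 * (b + 1)) * b ≤ -a / 2 := by
    rw [div_mul_eq_mul_div, div_le_div_iff₀ (by linarith) (by norm_num)]
    nlinarith
  linarith

/-- the structure of the minimizer -/
theorem min_structure {c : ℝ} {g : E3 → ℝ} (hg : Adm g) (hmin : ∀ h, Adm h → J c g ≤ J c h) :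
    (∀ᵐ x, pot g x < c → g x = U.indicator (fun _ => (1:ℝ)) x) ∧
    (∀ᵐ x, c < pot g x → g x = 0) := by
  set A : Set E3 := U ∩ {x | pot g x < c} with hA
  have hAo : IsOpen A := U_open.inter (isOpen_lt hg.bd.cont continuous_const)
  have hAdm := adm_ind A hAo.measurableSet inter_subset_left
  have h1 := var_ineq hg hmin hAdm
  have hnp : ∀ x, (A.indicator (fun _ => (1:ℝ)) x - g x) * (pot g x - c) ≤ 0 := by
    intro x
    by_cases hx : x ∈ A
    · rw [indicator_of_mem hx]
      have := hx.2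
      simp only [mem_ofPred_eq] at this
      nlinarith [hg.le_one x]
    · rw [indicator_of_notMem hx]
      by_cases hxU : x ∈ U
      · have : c ≤ pot g x := by
          by_contra hc
          push Not at hc
          exact hx ⟨hxU, hc⟩
        nlinarith [(hg.2 x).1]
      · rw [hg.zero hxU]; simp
  have hint : Integrable (fun x => (A.indicator (fun _ => (1:ℝ)) x - g x) * (pot g x - c)) := by
    have e : (fun x => (A.indicator (fun _ => (1:ℝ)) x - g x) * (pot g x - c)) =
        fun x => A.indicator (fun _ => (1:ℝ)) x * (pot g x - c) - g x * (pot g x - c) := by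
      funext x; ring
    rw [e]
    exact (int_mul c hAdm.bd hg.bd).1.sub (int_mul c hg.bd hg.bd).1
  have h2 : ∫ x, -((A.indicator (fun _ => (1:ℝ)) x - g x) * (pot g x - c)) = 0 := by
    rw [integral_neg]
    have : ∫ x, (A.indicator (fun _ => (1:ℝ)) x - g x) * (pot g x - c) ≤ 0 :=
      integral_nonpos hnp
    linarith
  have hint' : Integrable (fun x => -((A.indicator (fun _ => (1:ℝ)) x - g x) * (pot g x - c))) :=
    hint.neg
  rw [integral_eq_zero_iff_of_nonneg (fun x => by
    show (0:ℝ) ≤ -_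
    linarith [hnp x]) hint'] at h2
  constructor
  · filter_upwards [h2] with x hx hlt
    have hx' : -((A.indicator (fun _ => (1:ℝ)) x - g x) * (pot g x - c)) = 0 := hx
    by_cases hxU : x ∈ U
    · rw [indicator_of_mem (show x ∈ A from ⟨hxU, hlt⟩), neg_eq_zero, mul_eq_zero] at hx'
      rw [indicator_of_mem hxU]
      rcases hx' with h | h
      · linarith
      · linarith
    · rw [hg.zero hxU, indicator_of_notMem hxU]
  · filter_upwards [h2] with x hx hlt
    have hx' : -((A.indicator (fun _ => (1:ℝ)) x - g x) * (pot g x - c)) = 0 := hx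
    have hxA : x ∉ A := fun h => by
      have := h.2
      simp only [mem_ofPred_eq] at this
      linarith
    rw [indicator_of_notMem hxA, neg_eq_zero, mul_eq_zero] at hx'
    rcases hx' with h | h
    · linarith
    · linarith

/-- the potential of the minimizer is at most `c` -/
theorem min_le {c : ℝ} (hc : 0 ≤ c) {g : E3 → ℝ} (hg : Adm g)
    (hmin : ∀ h, Adm h → J c g ≤ J c h) : ∀ x, pot g x ≤ c := by
  obtain ⟨_, hs⟩ := min_structure hg hmin
  have h := min_principle (fun x => c - pot g x) (continuous_const.sub hg.bd.cont) ?_ univ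
    isOpen_univ (by simp) ?_
  · intro x
    have := h x trivial
    linarith
  · intro ε hε
    obtain ⟨R, hR⟩ := hg.bd.infty ε hε
    refine ⟨R, fun x hx => ?_⟩
    have := abs_lt.1 (hR x hx)
    linarith
  · intro x _ hx
    have hx' : c < pot g x := by linarith
    have hopen : IsOpen {y | c < pot g y} := isOpen_lt continuous_const hg.bd.cont
    obtain ⟨s, hs0, hsub⟩ := Metric.isOpen_iff.1 hopen x hx'
    refine ⟨s, hs0, fun s' hs'0 hs' => ?_⟩
    have hm := hg.bd.mean x hs'0 (by
      filter_upwards [hs] with y hy hyb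
      exact hy (hsub (ball_subset_ball hs' hyb)))
    have e : ∀ y, gb s' x y * (c - pot g y) = c * gb s' x y - gb s' x y * pot g y := by
      intro y; ring
    simp_rw [e]
    rw [integral_sub ((gb_int s' x).const_mul c) (pd_int _ _ (gb_nice s' x) hg.bd.nice),
      integral_const_mul, gb_total hs'0, hm]
    linarith

end Pool.Agent.Y307.HS
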