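import Pool.Agent.TH791.Newt

/-!
# Potentials of bounded densities with bounded support
-/

set_option autoImplicit false

namespace Pool.Agent.Y307.HS

open MeasureTheory Set Filter Topology Metric
open Pool.Agent.TH791.Cl Pool.Agent.TH791.Nw
open scoped ENNReal

/-- bounded measurable density with bounded support -/
def BD (g : E3 → ℝ) : Prop := Measurable g ∧ (∀ x, |g x| ≤ 1) ∧ ∃ R : ℝ, ∀ x, R < ‖x‖ → g x = 0

lemma BD.ind {g : E3 → ℝ} (hg : BD g) : ∃ R : ℝ, 0 < R ∧
    ∀ x, |g x| ≤ (closedBall (0:E3) R).indicator (fun _ => (1:ℝ)) x := by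
  obtain ⟨_, h1, R, hR⟩ := hg
  refine ⟨max R 1, by positivity, fun x => ?_⟩
  by_cases hx : x ∈ closedBall (0:E3) (max R 1)
  · rw [indicator_of_mem hx]; exact h1 x
  · rw [indicator_of_notMem hx, hR x, abs_zero]
    rw [mem_closedBall_zero_iff] at hx
    push Not at hx
    exact lt_of_le_of_lt (le_max_left _ _) hx

lemma BD.integrable {g : E3 → ℝ} (hg : BD g) : Integrable g := by
  obtain ⟨R, hR, h⟩ := hg.ind
  have : Integrable ((closedBall (0:E3) R).indicator (fun _ => (1:ℝ))) := by
    rw [integrable_indicator_iff measurableSet_closedBall]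
    exact integrableOn_const measure_closedBall_lt_top.ne
  exact this.mono' hg.1.aestronglyMeasurable (Eventually.of_forall fun x => by
    rw [Real.norm_eq_abs]; exact h x)

lemma BD.nice {g : E3 → ℝ} (hg : BD g) : Nice g := by
  refine ⟨hg.1, hg.integrable, ?_⟩
  refine hg.integrable.abs.mono' (hg.1.abs.pow_const _).aestronglyMeasurable
    (Eventually.of_forall fun x => ?_)
  rw [Real.norm_eq_abs, abs_of_nonneg (by positivity)]
  calc |g x| ^ (5/3 : ℝ) ≤ |g x| ^ (1 : ℝ) :=
        Real.rpow_le_rpow_of_exponent_ge' (abs_nonneg _) (hg.2.1 x) (by norm_num) (by norm_num)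
    _ = |g x| := Real.rpow_one _

lemma BD.int_div {g : E3 → ℝ} (hg : BD g) (x : E3) : Integrable (fun y => g y / ‖x - y‖) :=
  ((nice_bound g hg.nice).choose_spec x).1

/-- local integrability of the square of the kernel -/
lemma ker2 : Integrable (Set.indicator (ball (0:E3) 1) (fun u : E3 => ‖u‖ ^ (-2 : ℝ))) := by
  have h2 : IntegrableOn (fun x : E3 => ‖x‖ ^ (-2 : ℝ)) (ball 0 1) := by
    rw [integrableOn_fun_norm_addHaar (volume : Measure E3) (f := fun r : ℝ => r ^ (-2 : ℝ))]
    rw [finrank_euclideanSpace_fin]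
    have h : IntegrableOn (fun _ : ℝ => (1:ℝ)) (Ioo 0 1) := integrableOn_const (by simp)
    refine h.congr_fun ?_ measurableSet_Ioo
    intro y hy
    have hy0 : 0 < y := hy.1
    show (1:ℝ) = y ^ (3 - 1) • y ^ (-2 : ℝ)
    rw [smul_eq_mul, show (3 - 1 : ℕ) = 2 by norm_num, ← Real.rpow_natCast y 2,
      ← Real.rpow_add hy0]
    norm_num
  exact h2.integrable_indicator measurableSet_ball

/-- bound of the quadratic kernel -/
lemma BD.sq_bound {g : E3 → ℝ} (hg : BD g) : ∃ B : ℝ, 0 ≤ B ∧ ∀ x : E3,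
    Integrable (fun y => |g y| / ‖x - y‖ ^ 2) ∧ ∫ y, |g y| / ‖x - y‖ ^ 2 ≤ B := by
  obtain ⟨K, hKdef⟩ : ∃ K : E3 → ℝ, K = Set.indicator (ball (0:E3) 1)
    (fun u : E3 => ‖u‖ ^ (-2 : ℝ)) := ⟨_, rfl⟩
  have hK := ker2
  rw [← hKdef] at hK
  have hK0 : ∀ u, 0 ≤ K u := fun u => by
    rw [hKdef]; exact indicator_nonneg (fun v _ => by positivity) u
  have hi := hg.integrable
  refine ⟨(∫ u, K u) + ∫ y, |g y|, add_nonneg (integral_nonneg hK0)
    (integral_nonneg fun y => abs_nonneg _), fun x => ?_⟩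
  have hKx : Integrable (fun y => K (x - y)) := hK.comp_sub_left x
  have hpt : ∀ y, |g y| / ‖x - y‖ ^ 2 ≤ K (x - y) + |g y| := by
    intro y
    by_cases h : x - y ∈ ball (0:E3) 1
    · have e : K (x - y) = 1 / ‖x - y‖ ^ 2 := by
        rw [hKdef, indicator_of_mem h, Real.rpow_neg (norm_nonneg _), one_div]
        norm_num
      rw [e]
      have : |g y| / ‖x - y‖ ^ 2 ≤ 1 / ‖x - y‖ ^ 2 :=
        div_le_div_of_nonneg_right (hg.2.1 y) (by positivity)
      linarith [abs_nonneg (g y)]
    · have h1 : 1 ≤ ‖x - y‖ := by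
        rw [mem_ball_zero_iff] at h
        exact not_lt.mp h
      have : |g y| / ‖x - y‖ ^ 2 ≤ |g y| := div_le_self (abs_nonneg _) (by nlinarith)
      linarith [hK0 (x - y)]
  have hint : Integrable (fun y => |g y| / ‖x - y‖ ^ 2) := by
    refine (hKx.add hi.abs).mono' ?_ (Eventually.of_forall fun y => ?_)
    · exact (hg.1.abs.div ((measurable_const.sub measurable_id).norm.pow_const 2)).aestronglyMeasurable
    · rw [Real.norm_eq_abs, abs_of_nonneg (by positivity)]
      exact hpt y
  refine ⟨hint, ?_⟩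
  calc ∫ y, |g y| / ‖x - y‖ ^ 2 ≤ ∫ y, (K (x - y) + |g y|) :=
        integral_mono hint (hKx.add hi.abs) hpt
    _ = (∫ u, K u) + ∫ y, |g y| := by
        rw [integral_add hKx hi.abs, integral_sub_left_eq_self (fun u => K u) volume x]

/-- potentials of bounded densities are Lipschitz -/
lemma BD.lip {g : E3 → ℝ} (hg : BD g) : ∃ B : ℝ, 0 ≤ B ∧
    ∀ x x' : E3, |pot g x - pot g x'| ≤ B * ‖x - x'‖ := by
  obtain ⟨B, hB0, hB⟩ := hg.sq_bound
  refine ⟨B, hB0, fun x x' => ?_⟩
  unfold pot
  rw [← integral_sub (hg.int_div x) (hg.int_div x')]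
  have hdom : Integrable (fun y => ‖x - x'‖ * ((|g y| / ‖x - y‖ ^ 2 + |g y| / ‖x' - y‖ ^ 2) / 2)) :=
    (((hB x).1.add (hB x').1).div_const 2).const_mul _
  have hnull : ∀ᵐ y : E3, y ≠ x ∧ y ≠ x' := by
    have h1 : ∀ᵐ y : E3, y ≠ x := by
      rw [ae_iff]; simp
    have h2 : ∀ᵐ y : E3, y ≠ x' := by
      rw [ae_iff]; simp
    exact h1.and h2
  calc |∫ y, (g y / ‖x - y‖ - g y / ‖x' - y‖)| ≤ ∫ y, |g y / ‖x - y‖ - g y / ‖x' - y‖| :=
        abs_integral_le_integral_abs
    _ ≤ ∫ y, ‖x - x'‖ * ((|g y| / ‖x - y‖ ^ 2 + |g y| / ‖x' - y‖ ^ 2) / 2) := by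
        refine integral_mono_ae ((hg.int_div x).sub (hg.int_div x')).abs hdom ?_
        filter_upwards [hnull] with y hy
        have ha : 0 < ‖x - y‖ := norm_pos_iff.2 (sub_ne_zero.2 hy.1.symm)
        have hb : 0 < ‖x' - y‖ := norm_pos_iff.2 (sub_ne_zero.2 hy.2.symm)
        set a := ‖x - y‖
        set b := ‖x' - y‖
        have hab : |b - a| ≤ ‖x - x'‖ := by
          have := abs_norm_sub_norm_le (x' - y) (x - y)
          rwa [sub_sub_sub_cancel_right, norm_sub_rev x' x] at this
        have e : g y / a - g y / b = g y * ((b - a) / (a * b)) := by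
          field_simp
        rw [e, abs_mul, abs_div, abs_of_pos (mul_pos ha hb)]
        have h1 : |b - a| / (a * b) ≤ ‖x - x'‖ * ((1 / a ^ 2 + 1 / b ^ 2) / 2) := by
          calc |b - a| / (a * b) ≤ ‖x - x'‖ / (a * b) := by gcongr
            _ = ‖x - x'‖ * (1 / (a * b)) := by ring
            _ ≤ _ := by
              apply mul_le_mul_of_nonneg_left _ (norm_nonneg _)
              have : 0 ≤ (1 / a - 1 / b) ^ 2 := sq_nonneg _
              have e2 : 1 / (a * b) = (1 / a) * (1 / b) := by field_simp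
              have e3 : 1 / a ^ 2 = (1 / a) ^ 2 := by field_simp
              have e4 : 1 / b ^ 2 = (1 / b) ^ 2 := by field_simp
              rw [e2, e3, e4]
              nlinarith
        calc |g y| * (|b - a| / (a * b)) ≤ |g y| * (‖x - x'‖ * ((1 / a ^ 2 + 1 / b ^ 2) / 2)) :=
              mul_le_mul_of_nonneg_left h1 (abs_nonneg _)
          _ = ‖x - x'‖ * ((|g y| / a ^ 2 + |g y| / b ^ 2) / 2) := by ring
    _ ≤ B * ‖x - x'‖ := by
        rw [integral_const_mul, integral_div, integral_add (hB x).1 (hB x').1]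
        nlinarith [(hB x).2, (hB x').2, norm_nonneg (x - x')]

lemma BD.cont {g : E3 → ℝ} (hg : BD g) : Continuous (pot g) := by
  obtain ⟨B, hB0, hB⟩ := hg.lip
  have : LipschitzWith (Real.toNNReal B) (pot g) := by
    refine LipschitzWith.of_dist_le_mul fun x x' => ?_
    rw [Real.dist_eq, dist_eq_norm, Real.coe_toNNReal B hB0]
    exact hB x x'
  exact this.continuous

/-- potentials tend to zero at infinity -/
lemma BD.infty {g : E3 → ℝ} (hg : BD g) : ∀ ε > 0, ∃ R : ℝ, ∀ x, R < ‖x‖ → |pot g x| < ε := by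
  intro ε hε
  obtain ⟨_, h1, R, hR⟩ := hg
  have hg : BD g := ⟨‹_›, h1, R, hR⟩
  set M := ∫ y, |g y| with hM
  have hM0 : 0 ≤ M := integral_nonneg fun y => abs_nonneg _
  refine ⟨max R 0 + (M + 1) / ε, fun x hx => ?_⟩
  have hpos : 0 < (M + 1) / ε := by positivity
  set D := ‖x‖ - max R 0 with hD
  have hDpos : (M + 1) / ε < D := by rw [hD]; linarith
  have hD0 : 0 < D := hpos.trans hDpos
  have hle : |pot g x| ≤ M / D := by
    unfold pot
    calc |∫ y, g y / ‖x - y‖| ≤ ∫ y, |g y / ‖x - y‖| := abs_integral_le_integral_abs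
      _ ≤ ∫ y, |g y| / D := by
          refine integral_mono (hg.int_div x).abs (hg.integrable.abs.div_const D) fun y => ?_
          show |g y / ‖x - y‖| ≤ |g y| / D
          rw [abs_div, abs_of_nonneg (norm_nonneg (x - y))]
          by_cases hy : R < ‖y‖
          · rw [hR y hy]; simp
          · push Not at hy
            have : D ≤ ‖x - y‖ := by
              have := norm_sub_norm_le x y
              have h2 := le_max_left R 0
              rw [hD]; linarith
            exact div_le_div_of_nonneg_left (abs_nonneg _) hD0 this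
      _ = M / D := by rw [integral_div]
  refine lt_of_le_of_lt hle ?_
  rw [div_lt_iff₀ hD0]
  rw [div_lt_iff₀ hε] at hDpos
  linarith

/-- the ball average of a potential -/
lemma BD.avg {g : E3 → ℝ} (hg : BD g) (x0 : E3) {s : ℝ} (hs : 0 < s) :
    ∫ x, gb s x0 x * pot g x = ∫ x, g x * Gf s ‖x - x0‖ := by
  rw [pd_swap (gb s x0) g (gb_nice s x0) hg.nice]
  simp_rw [pot_gb hs]

lemma BD.gG_int {g : E3 → ℝ} (hg : BD g) (x0 : E3) {s : ℝ} (hs : 0 < s) :
    Integrable fun x => g x * Gf s ‖x - x0‖ := by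
  refine hg.integrable.mul_bdd (c := 3 / (2 * s)) ?_ ?_
  · exact ((Gf_meas s).comp (measurable_id.sub measurable_const).norm).aestronglyMeasurable
  · refine Eventually.of_forall fun x => ?_
    rw [Real.norm_of_nonneg (Gf_nonneg hs (norm_nonneg _))]
    exact Gf_le hs

lemma BD.sub_avg {g : E3 → ℝ} (hg : BD g) (x0 : E3) {s : ℝ} (hs : 0 < s) :
    Integrable (fun x => g x * Yf s ‖x - x0‖) ∧
    pot g x0 - ∫ x, gb s x0 x * pot g x = ∫ x, g x * Yf s ‖x - x0‖ := by
  have e : ∀ x, g x * Yf s ‖x - x0‖ = g x / ‖x0 - x‖ - g x * Gf s ‖x - x0‖ := by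
    intro x
    unfold Yf
    rw [norm_sub_rev x0 x]; ring
  constructor
  · simp_rw [e]
    exact (hg.int_div x0).sub (hg.gG_int x0 hs)
  · simp_rw [e]
    rw [integral_sub (hg.int_div x0) (hg.gG_int x0 hs), hg.avg x0 hs]
    rfl

/-- super mean value property where the density is nonnegative -/
lemma BD.super {g : E3 → ℝ} (hg : BD g) (x0 : E3) {s : ℝ} (hs : 0 < s)
    (h : ∀ᵐ x, x ∈ ball x0 s → 0 ≤ g x) : ∫ x, gb s x0 x * pot g x ≤ pot g x0 := by
  obtain ⟨_, h2⟩ := hg.sub_avg x0 hs
  have : 0 ≤ ∫ x, g x * Yf s ‖x - x0‖ := by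
    refine integral_nonneg_of_ae ?_
    have hne : ∀ᵐ y : E3, y ≠ x0 := by rw [ae_iff]; simp
    filter_upwards [h, hne] with x hx hx0
    by_cases hb : x ∈ ball x0 s
    · exact mul_nonneg (hx hb) (Yf_nonneg hs (norm_pos_iff.2 (sub_ne_zero.2 hx0)))
    · have : Yf s ‖x - x0‖ = 0 := Yf_zero (by rw [mem_ball, dist_eq_norm] at hb; exact not_lt.1 hb)
      show 0 ≤ g x * Yf s ‖x - x0‖
      rw [this, mul_zero]
  linarith

/-- mean value property where the density vanishes -/
lemma BD.mean {g : E3 → ℝ} (hg : BD g) (x0 : E3) {s : ℝ} (hs : 0 < s)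
    (h : ∀ᵐ x, x ∈ ball x0 s → g x = 0) : ∫ x, gb s x0 x * pot g x = pot g x0 := by
  obtain ⟨_, h2⟩ := hg.sub_avg x0 hs
  have : ∫ x, g x * Yf s ‖x - x0‖ = 0 := by
    refine integral_eq_zero_of_ae ?_
    filter_upwards [h] with x hx
    by_cases hb : x ∈ ball x0 s
    · show g x * Yf s ‖x - x0‖ = 0
      rw [hx hb, zero_mul]
    · have : Yf s ‖x - x0‖ = 0 := Yf_zero (by rw [mem_ball, dist_eq_norm] at hb; exact not_lt.1 hb)
      show g x * Yf s ‖x - x0‖ = 0
      rw [this, mul_zero]
  linarith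

/-- if the mean value property holds and the density is nonnegative, it vanishes -/
lemma BD.zero_of_mean {g : E3 → ℝ} (hg : BD g) (x0 : E3) {s : ℝ} (hs : 0 < s)
    (h : ∀ᵐ x, x ∈ ball x0 s → 0 ≤ g x) (h2 : pot g x0 ≤ ∫ x, gb s x0 x * pot g x) :
    ∀ᵐ x, x ∈ ball x0 s → g x = 0 := by
  obtain ⟨hi, h3⟩ := hg.sub_avg x0 hs
  have hne : ∀ᵐ y : E3, y ≠ x0 := by rw [ae_iff]; simp
  have hnn : 0 ≤ᵐ[volume] fun x => g x * Yf s ‖x - x0‖ := by
    filter_upwards [h, hne] with x hx hx0
    by_cases hb : x ∈ ball x0 s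
    · exact mul_nonneg (hx hb) (Yf_nonneg hs (norm_pos_iff.2 (sub_ne_zero.2 hx0)))
    · have : Yf s ‖x - x0‖ = 0 := Yf_zero (by rw [mem_ball, dist_eq_norm] at hb; exact not_lt.1 hb)
      show 0 ≤ g x * Yf s ‖x - x0‖
      rw [this, mul_zero]
  have h4 : ∫ x, g x * Yf s ‖x - x0‖ = 0 := le_antisymm (by linarith) (integral_nonneg_of_ae hnn)
  rw [integral_eq_zero_iff_of_nonneg_ae hnn hi] at h4
  filter_upwards [h4, hne] with x hx hx0 hb
  have hpos : 0 < Yf s ‖x - x0‖ := by
    have h5 : 0 < ‖x - x0‖ := norm_pos_iff.2 (sub_ne_zero.2 hx0)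
    have h6 : ‖x - x0‖ < s := by rwa [mem_ball, dist_eq_norm] at hb
    rw [Yf_eq hs h5 h6]
    have : 0 < s - ‖x - x0‖ := by linarith
    positivity
  have : g x * Yf s ‖x - x0‖ = 0 := hx
  exact (mul_eq_zero.1 this).resolve_right hpos.ne'

/-- minimum principle -/
theorem min_principle (w : E3 → ℝ) (hw : Continuous w)
    (hinf : ∀ ε > 0, ∃ R : ℝ, ∀ x, R < ‖x‖ → -ε < w x)
    (D : Set E3) (hD : IsOpen D) (hbd : ∀ x ∈ frontier D, 0 ≤ w x)
    (h : ∀ x ∈ D, w x < 0 → ∃ s > 0, ∀ s', 0 < s' → s' ≤ s → ∫ y, gb s' x y * w y ≤ w x) :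
    ∀ x ∈ D, 0 ≤ w x := by
  by_contra hcon
  push Not at hcon
  obtain ⟨x1, hx1D, hx1⟩ := hcon
  obtain ⟨R, hR⟩ := hinf (-w x1 / 2) (by linarith)
  have hx1R : ‖x1‖ ≤ R := by
    by_contra hc
    push Not at hc
    have := hR x1 hc
    linarith
  have hcomp : IsCompact (closure D ∩ closedBall (0:E3) R) :=
    (isCompact_closedBall 0 R).inter_left isClosed_closure
  obtain ⟨x0, hx0, hmin⟩ := hcomp.exists_isMinOn
    ⟨x1, subset_closure hx1D, by rwa [mem_closedBall_zero_iff]⟩ hw.continuousOn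
  have hm1 : w x0 ≤ w x1 := hmin ⟨subset_closure hx1D, by rwa [mem_closedBall_zero_iff]⟩
  have hmD : ∀ x ∈ closure D, w x0 ≤ w x := by
    intro x hx
    by_cases hxR : ‖x‖ ≤ R
    · exact hmin ⟨hx, by rwa [mem_closedBall_zero_iff]⟩
    · push Not at hxR
      have := hR x hxR
      linarith
  set m := w x0 with hm
  have hmneg : m < 0 := by linarith
  set S : Set E3 := {x | x ∈ closure D ∧ w x = m} with hS
  have hSD : ∀ x ∈ S, x ∈ D := by
    rintro x ⟨hx, hxm⟩
    by_contra hxD
    have : x ∈ frontier D := ⟨hx, by rwa [hD.interior_eq]⟩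
    have := hbd x this
    linarith
  have hSc : IsClosed S := isClosed_closure.inter (isClosed_eq hw continuous_const)
  have hSo : IsOpen S := by
    rw [Metric.isOpen_iff]
    intro x hx
    have hxD := hSD x hx
    obtain ⟨s, hs, hmean⟩ := h x hxD (by rw [hx.2]; exact hmneg)
    obtain ⟨r, hr, hball⟩ := Metric.isOpen_iff.1 hD x hxD
    set s' := min s r with hs'
    have hs'0 : 0 < s' := lt_min hs hr
    have hle := hmean s' hs'0 (min_le_left _ _)
    have hsub : ball x s' ⊆ D := (ball_subset_ball (min_le_right _ _)).trans hball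
    -- the integral of gb * (w - m) is ≤ 0
    have hbi : Integrable (fun y => gb s' x y * (w y - m)) := by
      have hcB : IsCompact (closedBall x s') := isCompact_closedBall x s'
      obtain ⟨C, hC⟩ := hcB.exists_bound_of_continuousOn (f := fun y => w y - m)
        ((hw.sub continuous_const).continuousOn)
      have h1 : Integrable (fun y => (4/3*Real.pi*s'^3)⁻¹ * (ball x s').indicator (fun y => w y - m) y) := by
        refine Integrable.const_mul ?_ _
        rw [integrable_indicator_iff measurableSet_ball]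
        refine (((hw.sub continuous_const).continuousOn).integrableOn_compact hcB).mono_set
          ball_subset_closedBall
      refine h1.congr (Eventually.of_forall fun y => ?_)
      unfold gb
      by_cases hy : y ∈ ball x s'
      · simp [hy]
      · simp [hy]
    have hwi : Integrable (fun y => gb s' x y * w y) := by
      have : (fun y => gb s' x y * w y) = fun y => gb s' x y * (w y - m) + m * gb s' x y := by
        funext y; ring
      rw [this]
      exact hbi.add ((gb_int s' x).const_mul m)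
    have hnn : 0 ≤ fun y => gb s' x y * (w y - m) := by
      intro y
      by_cases hy : y ∈ ball x s'
      · exact mul_nonneg (gb_nonneg hs'0 x y) (by linarith [hmD y (subset_closure (hsub hy))])
      · show 0 ≤ gb s' x y * (w y - m)
        unfold gb
        rw [indicator_of_notMem hy, zero_mul]
    have h0 : ∫ y, gb s' x y * (w y - m) = 0 := by
      apply le_antisymm _ (integral_nonneg hnn)
      have : ∫ y, gb s' x y * (w y - m) = (∫ y, gb s' x y * w y) - m := by
        have e : (fun y => gb s' x y * (w y - m)) = fun y => gb s' x y * w y - m * gb s' x y := by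
          funext y; ring
        rw [e, integral_sub hwi ((gb_int s' x).const_mul m), integral_const_mul, gb_total hs'0,
          mul_one]
      rw [this]
      rw [hx.2] at hle
      linarith
    rw [integral_eq_zero_iff_of_nonneg hnn hbi] at h0
    -- a.e. equality on the ball, hence everywhere
    have hae : ∀ᵐ y ∂(volume.restrict (ball x s')), w y = m := by
      rw [ae_restrict_iff' measurableSet_ball]
      filter_upwards [h0] with y hy hyb
      have hg : gb s' x y = (4/3*Real.pi*s'^3)⁻¹ := by unfold gb; rw [indicator_of_mem hyb]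
      have hpos : 0 < gb s' x y := by
        rw [hg]
        have := Real.pi_pos
        positivity
      have : gb s' x y * (w y - m) = 0 := hy
      have := (mul_eq_zero.1 this).resolve_left hpos.ne'
      linarith
    have hall : EqOn w (fun _ => m) (ball x s') :=
      Measure.eqOn_open_of_ae_eq hae isOpen_ball hw.continuousOn continuousOn_const
    exact ⟨s', hs'0, fun y hy => ⟨subset_closure (hsub hy), hall hy⟩⟩
  have huniv : S = univ := by
    refine IsClopen.eq_univ ⟨hSc, hSo⟩ ⟨x0, hx0.1, rfl⟩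
  obtain ⟨R', hR'⟩ := hinf (-m) (by linarith)
  obtain ⟨z, hz⟩ : ∃ z : E3, R' < ‖z‖ := by
    refine ⟨EuclideanSpace.single 0 (|R'| + 1), ?_⟩
    rw [PiLp.norm_single, Real.norm_of_nonneg (by positivity)]
    linarith [le_abs_self R']
  have h1 := hR' z hz
  have h2 : z ∈ S := by rw [huniv]; trivial
  rw [h2.2] at h1
  linarith

end Pool.Agent.Y307.HS
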