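import Pool.Agent.Y307.HS.Min

/-!
# Reflections and monotonicity of the potential
-/

set_option autoImplicit false

namespace Pool.Agent.Y307.HS

open MeasureTheory Set Filter Topology Metric
open Pool.Agent.TH791.Cl Pool.Agent.TH791.Nw
open scoped ENNReal RealInnerProductSpace

/-- reflection in the plane `⟪x, n⟫ = t` -/
noncomputable def sg (n : E3) (t : ℝ) (x : E3) : E3 := x - (2 * (⟪x, n⟫ - t)) • n

lemma sg_eq {n : E3} (hn : ‖n‖ = 1) (t : ℝ) (x : E3) :
    sg n t x = (ℝ ∙ n)ᗮ.reflection x + (2 * t) • n := by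
  rw [Submodule.reflection_orthogonal_apply, Submodule.reflection_singleton_apply, hn]
  unfold sg
  rw [real_inner_comm x n]
  simp only [Real.ringHom_apply, one_pow, div_one]
  rw [neg_sub, mul_sub, sub_smul, two_nsmul, two_mul (⟪x, n⟫ : ℝ), add_smul]
  abel

lemma sg_norm_sub {n : E3} (hn : ‖n‖ = 1) (t : ℝ) (x y : E3) : ‖sg n t x - sg n t y‖ = ‖x - y‖ := by
  rw [sg_eq hn, sg_eq hn, add_sub_add_right_eq_sub, ← map_sub, LinearIsometryEquiv.norm_map]

lemma inner_self_one {n : E3} (hn : ‖n‖ = 1) : (⟪n, n⟫ : ℝ) = 1 := by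
  rw [real_inner_self_eq_norm_sq, hn]; norm_num

lemma sg_inner {n : E3} (hn : ‖n‖ = 1) (t : ℝ) (x : E3) : ⟪sg n t x, n⟫ = 2 * t - ⟪x, n⟫ := by
  unfold sg
  rw [inner_sub_left, real_inner_smul_left, inner_self_one hn]
  ring

lemma sg_invol {n : E3} (hn : ‖n‖ = 1) (t : ℝ) (x : E3) : sg n t (sg n t x) = x := by
  have h := sg_inner hn t x
  conv_lhs => unfold sg
  rw [show (⟪x - (2 * (⟪x, n⟫ - t)) • n, n⟫ : ℝ) = 2 * t - ⟪x, n⟫ from h]
  rw [sub_sub, ← add_smul]
  have : (2 * (⟪x, n⟫ - t) + 2 * (2 * t - ⟪x, n⟫ - t)) = 0 := by ring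
  rw [this, zero_smul, sub_zero]

lemma sg_cont (n : E3) (t : ℝ) : Continuous (sg n t) := by
  unfold sg
  fun_prop

lemma sg_mp {n : E3} (hn : ‖n‖ = 1) (t : ℝ) : MeasurePreserving (sg n t) := by
  have h : sg n t = fun x => (ℝ ∙ n)ᗮ.reflection x + (2 * t) • n := funext (sg_eq hn t)
  rw [h]
  exact (measurePreserving_add_right volume ((2 * t) • n)).comp
    (LinearIsometryEquiv.measurePreserving (ℝ ∙ n)ᗮ.reflection)

lemma sg_emb {n : E3} (hn : ‖n‖ = 1) (t : ℝ) : MeasurableEmbedding (sg n t) :=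
  (MeasurableEquiv.ofInvolutive (sg n t) (sg_invol hn t) (sg_cont n t).measurable).measurableEmbedding

lemma sg_fix {n : E3} {t : ℝ} {x : E3} (h : ⟪x, n⟫ = t) : sg n t x = x := by
  unfold sg
  rw [h, sub_self, mul_zero, zero_smul, sub_zero]

lemma pot_sg {n : E3} (hn : ‖n‖ = 1) (t : ℝ) (g : E3 → ℝ) (x : E3) :
    pot g (sg n t x) = pot (fun y => g (sg n t y)) x := by
  unfold pot
  rw [← (sg_mp hn t).integral_comp (sg_emb hn t) (fun y => g y / ‖sg n t x - y‖)]
  simp_rw [sg_norm_sub hn]

lemma sg_bd {n : E3} (hn : ‖n‖ = 1) (t : ℝ) {g : E3 → ℝ} (hg : Adm g) :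
    BD (fun x => g (sg n t x) - g x) := by
  refine ⟨(hg.1.comp (sg_cont n t).measurable).sub hg.1, fun x => ?_, 2 + 2 * |t|, fun x hx => ?_⟩
  · rw [abs_le]
    constructor <;> linarith [(hg.2 x).1, (hg.2 (sg n t x)).1, hg.le_one x, hg.le_one (sg n t x)]
  · have h1 : x ∉ U := fun h => by
      have := U_norm h
      have := abs_nonneg t
      linarith
    have h2 : sg n t x ∉ U := fun h => by
      have h3 := U_norm h
      rw [sg_eq hn] at h3
      have h4 : ‖(ℝ ∙ n)ᗮ.reflection x‖ ≤ ‖(ℝ ∙ n)ᗮ.reflection x + (2 * t) • n‖ + ‖(2 * t) • n‖ := by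
        have := norm_sub_le ((ℝ ∙ n)ᗮ.reflection x + (2 * t) • n) ((2 * t) • n)
        rwa [add_sub_cancel_right] at this
      rw [LinearIsometryEquiv.norm_map, norm_smul, hn, mul_one, Real.norm_eq_abs, abs_mul,
        abs_two] at h4
      linarith
    show g (sg n t x) - g x = 0
    rw [hg.zero h1, hg.zero h2, sub_zero]

lemma pot_diff {n : E3} (hn : ‖n‖ = 1) (t : ℝ) {g : E3 → ℝ} (hg : Adm g) (x : E3) :
    pot (fun y => g (sg n t y) - g y) x = pot g (sg n t x) - pot g x := by
  rw [pot_sg hn]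
  have hg' : BD (fun y => g (sg n t y)) := by
    refine ⟨hg.1.comp (sg_cont n t).measurable, fun x => ?_, 2 + 2 * |t|, fun x hx => ?_⟩
    · exact hg.bd.2.1 _
    · have h1 : x ∉ U := fun h => by
        have := U_norm h
        have := abs_nonneg t
        linarith
      have h3 := (sg_bd hn t hg)
      have h2 : sg n t x ∉ U := fun h => by
        have h3 := U_norm h
        rw [sg_eq hn] at h3
        have h4 : ‖(ℝ ∙ n)ᗮ.reflection x‖ ≤ ‖(ℝ ∙ n)ᗮ.reflection x + (2 * t) • n‖ + ‖(2 * t) • n‖ := by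
          have := norm_sub_le ((ℝ ∙ n)ᗮ.reflection x + (2 * t) • n) ((2 * t) • n)
          rwa [add_sub_cancel_right] at this
        rw [LinearIsometryEquiv.norm_map, norm_smul, hn, mul_one, Real.norm_eq_abs, abs_mul,
          abs_two] at h4
        linarith
      exact hg.zero h2
  unfold pot
  rw [← integral_sub (hg'.int_div x) (hg.bd.int_div x)]
  congr 1
  funext y
  ring

/-- moving planes -/
theorem refl_mono {c : ℝ} {g : E3 → ℝ} (hg : Adm g) (hle : ∀ x, pot g x ≤ c)
    (hsat : ∀ᵐ x, pot g x < c → g x = U.indicator (fun _ => (1:ℝ)) x)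
    (n : E3) (hn : ‖n‖ = 1) (t : ℝ) (hU : ∀ x ∈ U, t < ⟪x, n⟫ → sg n t x ∈ U) :
    ∀ x, t ≤ ⟪x, n⟫ → pot g x ≤ pot g (sg n t x) := by
  have hbd := sg_bd hn t hg
  set w : E3 → ℝ := pot (fun y => g (sg n t y) - g y) with hw
  have hwx : ∀ x, w x = pot g (sg n t x) - pot g x := fun x => pot_diff hn t hg x
  have hD : IsOpen {x : E3 | t < ⟪x, n⟫} := isOpen_lt continuous_const (by fun_prop)
  have hmin := min_principle w hbd.cont ?_ {x : E3 | t < ⟪x, n⟫} hD ?_ ?_
  · intro x hx
    rcases hx.lt_or_eq with h | h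
    · have := hmin x h
      rw [hwx] at this
      linarith
    · rw [sg_fix h.symm]
  · intro ε hε
    obtain ⟨R, hR⟩ := hbd.infty ε hε
    exact ⟨R, fun x hx => (abs_lt.1 (hR x hx)).1⟩
  · intro x hx
    have h1 : ⟪x, n⟫ = t := by
      have h2 := frontier_lt_subset_eq (continuous_const (y := t))
        (show Continuous fun x : E3 => (⟪x, n⟫ : ℝ) by fun_prop) hx
      exact h2.symm
    rw [hwx, sg_fix h1, sub_self]
  · intro x hx hxw
    rw [hwx] at hxw
    have hlt : pot g (sg n t x) < c := by linarith [hle x]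
    have hopen : IsOpen {y : E3 | t < ⟪y, n⟫ ∧ pot g (sg n t y) < c} :=
      hD.inter (isOpen_lt (hg.bd.cont.comp (sg_cont n t)) continuous_const)
    obtain ⟨s, hs0, hsub⟩ := Metric.isOpen_iff.1 hopen x ⟨hx, hlt⟩
    refine ⟨s, hs0, fun s' hs'0 hs' => hbd.super x hs'0 ?_⟩
    have hsat' := (sg_mp hn t).quasiMeasurePreserving.ae hsat
    filter_upwards [hsat'] with y hy hyb
    have hy2 := hsub (ball_subset_ball hs' hyb)
    have h3 := hy hy2.2
    rw [h3]
    have h4 := (hg.2 y).2
    have h5 : U.indicator (fun _ => (1:ℝ)) y ≤ U.indicator (fun _ => (1:ℝ)) (sg n t y) := by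
      by_cases hyU : y ∈ U
      · rw [indicator_of_mem hyU, indicator_of_mem (hU y hyU hy2.1)]
      · rw [indicator_of_notMem hyU]
        exact indicator_nonneg (fun _ _ => zero_le_one) _
    linarith

/-- the unit vector `ε e_i` -/
noncomputable def ev (i : Fin 3) (ε : ℝ) : E3 := EuclideanSpace.single i ε

lemma ev_norm (i : Fin 3) {ε : ℝ} (hε : |ε| = 1) : ‖ev i ε‖ = 1 := by
  unfold ev
  rw [PiLp.norm_single, Real.norm_eq_abs, hε]

lemma ev_inner (i : Fin 3) (ε : ℝ) (x : E3) : (⟪x, ev i ε⟫ : ℝ) = ε * x i := by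
  unfold ev
  rw [EuclideanSpace.inner_single_right]
  simp

lemma ev_apply (i k : Fin 3) (ε : ℝ) : ev i ε k = if k = i then ε else 0 := by
  unfold ev
  rw [PiLp.single_apply]

/-- a function which is monotone under the reflections of the cube -/
structure CubeMono (F : E3 → ℝ) : Prop where
  one : ∀ (x y : E3) (i : Fin 3), (∀ k, k ≠ i → y k = x k) → |y i| ≤ |x i| → F x ≤ F y
  two : ∀ (x y : E3) (i j : Fin 3), i ≠ j → (∀ k, k ≠ i → k ≠ j → y k = x k) →
    y i + y j = x i + x j → x j ≤ y i → y i ≤ x i → F x ≤ F y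

theorem cubeMono {c : ℝ} {g : E3 → ℝ} (hg : Adm g) (hle : ∀ x, pot g x ≤ c)
    (hsat : ∀ᵐ x, pot g x < c → g x = U.indicator (fun _ => (1:ℝ)) x) : CubeMono (pot g) := by
  constructor
  · intro x y i hk hi
    obtain ⟨ε, hε, hεx⟩ : ∃ ε : ℝ, |ε| = 1 ∧ ε * x i = |x i| := by
      rcases le_or_gt 0 (x i) with h | h
      · exact ⟨1, by norm_num, by rw [abs_of_nonneg h, one_mul]⟩
      · exact ⟨-1, by norm_num, by rw [abs_of_neg h]; ring⟩
    have hε2 : ε * ε = 1 := by
      rcases (abs_eq (by norm_num : (0:ℝ) ≤ 1)).1 hε with h | h <;> rw [h] <;> norm_num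
    have hyε : |ε * y i| ≤ |x i| := by rwa [abs_mul, hε, one_mul]
    have hb := abs_le.1 hyε
    set t := (|x i| + ε * y i) / 2 with ht
    have ht0 : 0 ≤ t := by rw [ht]; linarith
    have h := refl_mono hg hle hsat (ev i ε) (ev_norm i hε) t ?_ x ?_
    · have e : sg (ev i ε) t x = y := by
        ext k
        unfold sg
        rw [ev_inner, hεx]
        simp only [PiLp.sub_apply, PiLp.smul_apply, smul_eq_mul, ev_apply]
        by_cases hki : k = i
        · subst hki
          rw [if_pos rfl, ht]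
          have : ε * (ε * x k) = x k := by rw [← mul_assoc, hε2, one_mul]
          have h3 : ε * (ε * y k) = y k := by rw [← mul_assoc, hε2, one_mul]
          rw [← hεx]
          linear_combination -this + h3
        · rw [if_neg hki, mul_zero, sub_zero, hk k hki]
      rwa [e] at h
    · intro z hz hzt
      rw [ev_inner] at hzt
      intro k
      unfold sg
      rw [ev_inner]
      simp only [PiLp.sub_apply, PiLp.smul_apply, smul_eq_mul, ev_apply]
      by_cases hki : k = i
      · subst hki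
        rw [if_pos rfl]
        have h1 : |ε * z k| < 1 := by rw [abs_mul, hε, one_mul]; exact hz k
        have h2 := abs_lt.1 h1
        have h3 : |ε * (z k - 2 * (ε * z k - t) * ε)| < 1 := by
          have e : ε * (z k - 2 * (ε * z k - t) * ε) = 2 * t - ε * z k := by
            linear_combination (-2 * (ε * z k - t)) * hε2
          rw [e, abs_lt]
          constructor <;> linarith
        rwa [abs_mul, hε, one_mul] at h3
      · rw [if_neg hki, mul_zero, sub_zero]
        exact hz k
    · rw [ev_inner, hεx, ht]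
      linarith
  · intro x y i j hij hk hsum hle1 hle2
    set r : ℝ := √2 with hr
    have hr0 : 0 < r := by rw [hr]; positivity
    have hrr : r * r = 2 := Real.mul_self_sqrt (by norm_num)
    set n : E3 := (1 / r) • (ev i 1 - ev j 1) with hndef
    have hnk : ∀ k, n k = 1 / r * ((if k = i then 1 else 0) - (if k = j then 1 else 0)) := by
      intro k
      rw [hndef]
      simp only [PiLp.sub_apply, PiLp.smul_apply, smul_eq_mul, ev_apply]
    have hinner : ∀ z : E3, (⟪z, n⟫ : ℝ) = (z i - z j) / r := by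
      intro z
      rw [hndef, real_inner_smul_right, inner_sub_right, ev_inner, ev_inner]
      ring
    have hn : ‖n‖ = 1 := by
      have h1 : ‖n‖ ^ 2 = 1 := by
        rw [← real_inner_self_eq_norm_sq, hinner, hnk, hnk, if_pos rfl, if_neg hij,
          if_neg hij.symm, if_pos rfl]
        field_simp
        nlinarith
      have h2 : 0 ≤ ‖n‖ := norm_nonneg n
      nlinarith
    -- the reflection
    have hsgk : ∀ (z : E3) (t : ℝ) (k : Fin 3), sg n t z k =
        z k - (z i - z j - r * t) * ((if k = i then 1 else 0) - (if k = j then 1 else 0)) := by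
      intro z t k
      unfold sg
      rw [hinner]
      simp only [PiLp.sub_apply, PiLp.smul_apply, smul_eq_mul]
      rw [hnk]
      have : 2 * ((z i - z j) / r - t) * (1 / r * ((if k = i then (1:ℝ) else 0) - (if k = j then 1 else 0)))
          = (z i - z j - r * t) * ((if k = i then 1 else 0) - (if k = j then 1 else 0)) := by
        field_simp
        rw [show r ^ 2 = 2 by rw [sq]; exact hrr]
      rw [this]
    set t : ℝ := (x i - x j - (x i - y i)) / r with ht
    have hrt : r * t = y i - x j := by rw [ht]; field_simp; ring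
    have ht0 : 0 ≤ r * t := by rw [hrt]; linarith
    have h := refl_mono hg hle hsat n hn t ?_ x ?_
    · have e : sg n t x = y := by
        ext k
        rw [hsgk, hrt]
        by_cases hki : k = i
        · subst hki
          rw [if_pos rfl, if_neg hij]
          ring
        · by_cases hkj : k = j
          · subst hkj
            rw [if_neg hki, if_pos rfl]
            linarith
          · rw [if_neg hki, if_neg hkj, hk k hki hkj]
            ring
      rwa [e] at h
    · intro z hz hzt
      rw [hinner, lt_div_iff₀ hr0, mul_comm] at hzt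
      intro k
      rw [hsgk]
      have hzi := abs_lt.1 (hz i)
      have hzj := abs_lt.1 (hz j)
      by_cases hki : k = i
      · subst hki
        rw [if_pos rfl, if_neg hij, abs_lt]
        constructor <;> linarith
      · by_cases hkj : k = j
        · subst hkj
          rw [if_neg hki, if_pos rfl, abs_lt]
          constructor <;> linarith
        · rw [if_neg hki, if_neg hkj, sub_self, mul_zero, sub_zero]
          exact hz k
    · rw [hinner, le_div_iff₀ hr0, mul_comm, hrt]
      linarith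

/-- decreasing all the coordinates -/
lemma CubeMono.all {F : E3 → ℝ} (hF : CubeMono F) {x y : E3} (h : ∀ i, |y i| ≤ |x i|) : F x ≤ F y := by
  set z1 : E3 := !₂[y 0, x 1, x 2] with hz1
  set z2 : E3 := !₂[y 0, y 1, x 2] with hz2
  have h1 : F x ≤ F z1 := by
    refine hF.one x z1 0 (fun k hk => ?_) (by simpa [hz1] using h 0)
    fin_cases k
    · exact absurd rfl hk
    · simp [hz1]
    · simp [hz1]
  have h2 : F z1 ≤ F z2 := by
    refine hF.one z1 z2 1 (fun k hk => ?_) (by simpa [hz1, hz2] using h 1)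
    fin_cases k
    · simp [hz1, hz2]
    · exact absurd rfl hk
    · simp [hz1, hz2]
  have h3 : F z2 ≤ F y := by
    refine hF.one z2 y 2 (fun k hk => ?_) (by simpa [hz2] using h 2)
    fin_cases k
    · simp [hz2]
    · simp [hz2]
    · exact absurd rfl hk
  exact h1.trans (h2.trans h3)

/-- making one coordinate positive -/
lemma CubeMono.step {F : E3 → ℝ} (hF : CubeMono F) {x : E3} {i j : Fin 3} (hij : i ≠ j)
    (hi : 0 < x i) (hj : 0 ≤ x j) {η : ℝ} (hη : 0 < η) :
    ∃ y : E3, F x ≤ F y ∧ (∀ k, k ≠ i → k ≠ j → y k = x k) ∧ x i - η ≤ y i ∧ 0 < y i ∧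
      x j ≤ y j ∧ 0 < y j := by
  rcases hj.lt_or_eq with h | h
  · exact ⟨x, le_rfl, fun k _ _ => rfl, by linarith, hi, le_rfl, h⟩
  · set s := min η (x i / 2) with hs
    have hs0 : 0 < s := lt_min hη (by linarith)
    have hs1 : s ≤ η := min_le_left _ _
    have hs2 : s ≤ x i / 2 := min_le_right _ _
    set y : E3 := x - s • (ev i 1 - ev j 1) with hy
    have hyk : ∀ k, y k = x k - s * ((if k = i then 1 else 0) - (if k = j then 1 else 0)) := by
      intro k
      rw [hy]
      simp only [PiLp.sub_apply, PiLp.smul_apply, smul_eq_mul, ev_apply]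
    have hyi : y i = x i - s := by rw [hyk, if_pos rfl, if_neg hij]; ring
    have hyj : y j = x j + s := by rw [hyk, if_neg hij.symm, if_pos rfl]; ring
    have hk : ∀ k, k ≠ i → k ≠ j → y k = x k := by
      intro k h1 h2
      rw [hyk, if_neg h1, if_neg h2]; ring
    refine ⟨y, hF.two x y i j hij hk ?_ ?_ ?_, hk, ?_, ?_, ?_, ?_⟩
    · rw [hyi, hyj]; ring
    · rw [hyi, ← h]; linarith
    · rw [hyi]; linarith
    · rw [hyi]; linarith
    · rw [hyi]; linarith
    · rw [hyj]; linarith
    · rw [hyj, ← h]; linarith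

/-- strict star-shapedness of the superlevel sets -/
theorem CubeMono.star {F : E3 → ℝ} (hF : CubeMono F) {c : ℝ} {x : E3} (hx : c ≤ F x) (hx0 : x ≠ 0)
    {t : ℝ} (ht0 : 0 ≤ t) (ht1 : t < 1) : t • x ∈ interior {y | c ≤ F y} := by
  obtain ⟨i, hi⟩ : ∃ i, x i ≠ 0 := by
    by_contra hcon
    push Not at hcon
    exact hx0 (by ext k; simpa using hcon k)
  set a : E3 := !₂[|x 0|, |x 1|, |x 2|] with ha
  have hak : ∀ k, a k = |x k| := by
    intro k
    fin_cases k <;> simp [ha]
  have hFa : F x ≤ F a := hF.all fun k => by rw [hak, abs_abs]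
  have hai : 0 < a i := by rw [hak]; exact abs_pos.2 hi
  have hne1 : i ≠ i + 1 := by fin_cases i <;> decide
  have hne2 : i ≠ i + 2 := by fin_cases i <;> decide
  have hne3 : i + 1 ≠ i + 2 := by fin_cases i <;> decide
  have hall : ∀ k, k = i ∨ k = i + 1 ∨ k = i + 2 := by
    intro k
    fin_cases i <;> fin_cases k <;> decide
  set η := a i * (1 - t) / 4 with hη
  have hη0 : 0 < η := by
    have : 0 < 1 - t := by linarith
    positivity
  obtain ⟨y, hy1, hy2, hy3, hy4, hy5, hy6⟩ := hF.step hne1 hai (by rw [hak]; positivity) hη0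
  have hyi2 : 0 ≤ y (i + 2) := by
    rw [hy2 (i + 2) hne2.symm hne3.symm, hak]; positivity
  obtain ⟨z, hz1, hz2, hz3, hz4, hz5, hz6⟩ := hF.step hne2 hy4 hyi2 hη0
  -- all coordinates of z exceed those of t • x
  have hz : ∀ k, 0 < z k ∧ t * |x k| < z k := by
    intro k
    rcases hall k with h | h | h
    · subst h
      refine ⟨hz4, ?_⟩
      rw [← hak]
      nlinarith
    · subst h
      have e : z (i + 1) = y (i + 1) := hz2 (i + 1) hne1.symm hne3
      rw [e]
      refine ⟨hy6, ?_⟩
      rw [← hak]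
      have h0 : 0 ≤ a (i + 1) := by rw [hak]; positivity
      rcases h0.lt_or_eq with h | h
      · nlinarith
      · rw [← h, mul_zero]; exact hy6
    · subst h
      refine ⟨hz6, ?_⟩
      have e : y (i + 2) = a (i + 2) := hy2 (i + 2) hne2.symm hne3.symm
      rw [← hak, ← e]
      rcases hyi2.lt_or_eq with h | h
      · nlinarith
      · rw [← h, mul_zero]; exact hz6
  rw [mem_interior]
  refine ⟨{w | ∀ k, |w k| < z k}, ?_, ?_, ?_⟩
  · intro w hw
    have h1 : F z ≤ F w := hF.all fun k => by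
      rw [abs_of_pos (hz k).1]; exact (hw k).le
    exact hx.trans (hFa.trans (hy1.trans (hz1.trans h1)))
  · have : {w : E3 | ∀ k, |w k| < z k} = ⋂ k, {w : E3 | |w k| < z k} := by
      ext w; simp
    rw [this]
    exact isOpen_iInter_of_finite fun k => isOpen_lt (by fun_prop) continuous_const
  · intro k
    rw [PiLp.smul_apply, smul_eq_mul, abs_mul, abs_of_nonneg ht0]
    exact (hz k).2

end Pool.Agent.Y307.HS
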